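import Pool.Agent.helper37.VN.Def

set_option autoImplicit false

/-!
# VN-03: the upper bound for the v-number

Let `F = W \ D` and `x_F = ∏_{u ∈ F} X u`. Then `(I : x_F) = P` with `P = Ideal.span (X '' D)`, a prime, so `P` is an
associated prime of `S/I` and the v-number is at most the degree `|F|` of `x_F`.

Proof. `P` is prime: it is the kernel of the `K`-algebra map `φ : S → S` with `X v ↦ 0` for `v ∈ D` and `X v ↦ X v`
otherwise (`MvPolynomial.aeval`), and `S` is a domain (kernel = span of `X '' D`: `MvPolynomial.mem_ideal_span_X_image`: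
`p ∈ span (X '' D)` iff every monomial in the support has an exponent `≠ 0` at some `v ∈ D`; or show
`p - φ p ∈ span (X '' D)` by induction on `p`). It is enough to work with `P := RingHom.ker φ`.
* `g ∈ P → g * x_F ∈ I`: enough for `g = X d`, `d ∈ D`: by `HasP` there is `v` with `cn G v ⊆ W` and
  `D ∩ cn G v = {d}`, so `cn G v ⊆ F ∪ {d}` and the generator `∏_{u ∈ cn G v} X u` divides `X d * x_F`
  (`Finset.prod_dvd_prod_of_subset`).
* `g * x_F ∈ I → g ∈ P`: `I ⊆ P` as every generator has a factor `X d` with `d ∈ D` (`D` dominates), `x_F ∉ P`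
  because `φ x_F = x_F ≠ 0` (`F` is disjoint from `D`), and `P` is prime.
* `IsAssociatedPrime P (S ⧸ I)`: `P` is the annihilator of the class of `x_F`.
-/

namespace Pool.Agent.helper37.VN

open MvPolynomial Finset
open scoped Classical

noncomputable section

private theorem Vnu_sub_mem {V : Type*} (K : Type*) [Field K] (D : Finset V)
    (p : MvPolynomial V K) :
    p - (aeval (fun v => if v ∈ D then (0 : MvPolynomial V K) else X v)) p ∈
      Ideal.span (X '' (D : Set V) : Set (MvPolynomial V K)) := by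
  induction p using MvPolynomial.induction_on with
  | C a =>
    rw [aeval_C, MvPolynomial.algebraMap_eq, sub_self]
    exact Ideal.zero_mem _
  | add p q hp hq =>
    rw [map_add, add_sub_add_comm]
    exact Ideal.add_mem _ hp hq
  | mul_X p v hp =>
    rw [map_mul, aeval_X]
    by_cases hv : v ∈ D
    · rw [if_pos hv, mul_zero, sub_zero]
      exact Ideal.mul_mem_left _ _ (Ideal.subset_span ⟨v, hv, rfl⟩)
    · rw [if_neg hv, ← sub_mul]
      exact Ideal.mul_mem_right _ _ hp

theorem vNumber_le_of_hasP {V : Type*} [Fintype V] (K : Type*) [Field K] (G : SimpleGraph V) (D W : Finset V)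
    (c : V → V) (h : HasP G D W c) : vNumber (ngIdeal K G) ≤ (((W \ D).card : ℕ) : ℕ∞) := by
  obtain ⟨hDW, hdom, hcW, hcD, hpriv, hfib⟩ := h
  obtain ⟨φ, hφ⟩ : ∃ φ : MvPolynomial V K →ₐ[K] MvPolynomial V K,
      φ = aeval (fun v => if v ∈ D then (0 : MvPolynomial V K) else X v) := ⟨_, rfl⟩
  have hφX : ∀ v, φ (X v) = if v ∈ D then 0 else X v := by
    intro v
    rw [hφ, aeval_X]
  obtain ⟨xF, hxF⟩ : ∃ xF : MvPolynomial V K, xF = ∏ u ∈ W \ D, X u := ⟨_, rfl⟩
  have hφF : φ xF = xF := by
    rw [hxF, map_prod]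
    refine Finset.prod_congr rfl fun u hu => ?_
    rw [hφX, if_neg (Finset.mem_sdiff.1 hu).2]
  have hF0 : xF ≠ 0 := by
    rw [hxF, Finset.prod_ne_zero_iff]
    intro u _
    exact MvPolynomial.X_ne_zero u
  obtain ⟨P, hP⟩ : ∃ P : Ideal (MvPolynomial V K), P = RingHom.ker φ := ⟨_, rfl⟩
  have hPp : P.IsPrime := by
    rw [hP]
    exact RingHom.ker_isPrime _
  have hmem : ∀ g, g ∈ P ↔ g * xF ∈ ngIdeal K G := by
    intro g
    constructor
    · intro hg
      have h1 : g ∈ Ideal.span (X '' (D : Set V) : Set (MvPolynomial V K)) := by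
        have h2 := Vnu_sub_mem K D g
        rw [← hφ] at h2
        rw [hP, RingHom.mem_ker] at hg
        rw [hg, sub_zero] at h2
        exact h2
      refine Submodule.span_induction (p := fun g _ => g * xF ∈ ngIdeal K G) ?_ ?_ ?_ ?_ h1
      · rintro _ ⟨d, hd, rfl⟩
        obtain ⟨v, hv1, hv2⟩ := hpriv d hd
        have h3 : (∏ u ∈ cn G v, (X u : MvPolynomial V K)) ∣ X d * xF := by
          have h4 : X d * xF = ∏ u ∈ insert d (W \ D), (X u : MvPolynomial V K) := by
            rw [Finset.prod_insert (fun h5 => (Finset.mem_sdiff.1 h5).2 hd), hxF]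
          rw [h4]
          refine Finset.prod_dvd_prod_of_subset _ _ _ ?_
          intro u hu
          rw [Finset.mem_insert, Finset.mem_sdiff]
          by_cases hud : u ∈ D
          · exact Or.inl ((hv2 u hud).1 hu)
          · exact Or.inr ⟨hv1 hu, hud⟩
        exact Ideal.mem_of_dvd _ h3 (Ideal.subset_span ⟨v, rfl⟩)
      · rw [zero_mul]
        exact Ideal.zero_mem _
      · intro a b _ _ ha hb
        rw [add_mul]
        exact Ideal.add_mem _ ha hb
      · intro a b _ hb
        rw [smul_eq_mul, mul_assoc]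
        exact Ideal.mul_mem_left _ _ hb
    · intro hg
      have hI : ngIdeal K G ≤ P := by
        unfold ngIdeal
        rw [Ideal.span_le]
        rintro _ ⟨v, rfl⟩
        obtain ⟨d, hd, hdv⟩ := hdom v
        have h2 : (X d : MvPolynomial V K) ∣ ∏ u ∈ cn G v, X u := Finset.dvd_prod_of_mem _ hdv
        refine Ideal.mem_of_dvd _ h2 ?_
        rw [hP, RingHom.mem_ker, hφX, if_pos hd]
      have h3 := hI hg
      rcases hPp.mem_or_mem h3 with h4 | h4
      · exact h4
      · exfalso
        rw [hP, RingHom.mem_ker, hφF] at h4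
        exact hF0 h4
  have hhom : xF.IsHomogeneous (W \ D).card := by
    rw [hxF]
    have h1 := MvPolynomial.IsHomogeneous.prod (W \ D) (fun u => (X u : MvPolynomial V K))
      (fun _ => 1) (fun u _ => isHomogeneous_X K u)
    rwa [Finset.sum_const, smul_eq_mul, mul_one] at h1
  have hass : P ∈ associatedPrimes (MvPolynomial V K) (MvPolynomial V K ⧸ ngIdeal K G) := by
    refine ⟨hPp, Ideal.Quotient.mk _ xF, ?_⟩
    have h1 : P = Submodule.colon (⊥ : Submodule (MvPolynomial V K)
        (MvPolynomial V K ⧸ ngIdeal K G)) {Ideal.Quotient.mk _ xF} := by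
      ext g
      rw [hmem, Submodule.mem_colon_singleton, Submodule.mem_bot, ← Ideal.Quotient.eq_zero_iff_mem,
        map_mul]
      rfl
    rw [← h1, hPp.radical]
  exact iInf_le (fun d : {d : ℕ // ∃ f : MvPolynomial V K, f.IsHomogeneous d ∧
    ∃ P ∈ associatedPrimes (MvPolynomial V K) (MvPolynomial V K ⧸ ngIdeal K G),
      ∀ g, g ∈ P ↔ g * f ∈ ngIdeal K G} => (d.1 : ℕ∞)) ⟨_, xF, hhom, P, hass, hmem⟩

end

end Pool.Agent.helper37.VN
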