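import Pool.Agent.helper37.VN.Kos
import Pool.Agent.helper37.VN.Vnu

set_option autoImplicit false

/-!
# VN-04: the criterion for the structure `HasF`, invariance, and graphs with `α = θ`

(1) `HasF G → HasP G D W c` with `W = ⋃_{d ∈ D} cn G (s d)`, `c u = u` for `u ∈ D` and, for `u ∈ W \ D`, `c u` = some
`d ∈ D` with `u ∈ cn G (s d)`. `D ⊆ W` since `d ∈ cn G (s d)`. Fifth condition of `HasP`: `v = s d`. Last condition: let
`cn G v ⊆ W`; if `v` were different from all `s d` then some `z ∈ cn G v` is in no `cn G (s d)`, so `z ∉ W`, a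
contradiction; so `v = s d` with `d ∈ D`, and if `u ∈ W`, `c u = d` then `u ∈ cn G (s d)` (if `u ∈ D` then `u = c u = d`
and `d ∈ cn G (s d)`). (2) `HasF` is invariant under isomorphism. (3) if `A` is an independent set and `f : V → V` has
`f v ∈ A`, `f a = a` for `a ∈ A`, and the fibres of `f` are cliques (so `α = θ`), then `HasP G A univ f`: `A`
dominates (`f v ∈ cn G v`, because `f v` and `v` are in the same fibre as `f (f v) = f v`); for `a ∈ A` the vertex `v = a`:
`A ∩ cn G a = {a}`; for every `v` the fibre of `f v` is contained in `cn G v`.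
-/

namespace Pool.Agent.helper37.VN

open MvPolynomial Finset
open scoped Classical

noncomputable section

private theorem Cri_mem {V : Type*} [Fintype V] (G : SimpleGraph V) (u v : V) :
    u ∈ cn G v ↔ u = v ∨ G.Adj v u := by
  unfold cn
  rw [Finset.mem_filter]
  exact ⟨fun h => h.2, fun h => ⟨Finset.mem_univ _, h⟩⟩

private theorem Cri_iso {V V' : Type*} [Fintype V] [Fintype V'] {G : SimpleGraph V}
    {G' : SimpleGraph V'} (e : G ≃g G') (u v : V) : e u ∈ cn G' (e v) ↔ u ∈ cn G v := by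
  rw [Cri_mem, Cri_mem, e.map_adj_iff]
  constructor
  · rintro (h | h)
    · exact Or.inl (e.injective h)
    · exact Or.inr h
  · rintro (h | h)
    · exact Or.inl (congrArg e h)
    · exact Or.inr h

theorem hasP_of_hasF {V : Type*} [Fintype V] (G : SimpleGraph V) (h : HasF G) : ∃ D W c, HasP G D W c := by
  obtain ⟨D, s, h1, h2, h3⟩ := h
  have hW : ∀ u, u ∈ D.biUnion (fun d => cn G (s d)) → ∃ d ∈ D, u ∈ cn G (s d) := by
    intro u hu
    exact Finset.mem_biUnion.1 hu
  choose! c hc1 hc2 using hW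
  have hDW : D ⊆ D.biUnion (fun d => cn G (s d)) := by
    intro d hd
    exact Finset.mem_biUnion.2 ⟨d, hd, (h2 d hd d hd).2 rfl⟩
  refine ⟨D, D.biUnion (fun d => cn G (s d)), fun u => if u ∈ D then u else c u, hDW, h1, ?_, ?_, ?_, ?_⟩
  · intro u hu
    by_cases h : u ∈ D
    · simp only [h, if_true]
    · simp only [h, if_false]
      exact hc1 u hu
  · intro d hd
    simp only [hd, if_true]
  · intro d hd
    refine ⟨s d, ?_, fun d' hd' => h2 d hd d' hd'⟩
    intro u hu
    exact Finset.mem_biUnion.2 ⟨d, hd, hu⟩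
  · intro v hv
    obtain ⟨d, hd, rfl⟩ : ∃ d ∈ D, v = s d := by
      by_contra hne
      push Not at hne
      obtain ⟨z, hz1, hz2⟩ := h3 v hne
      obtain ⟨d, hd, hzd⟩ := Finset.mem_biUnion.1 (hv hz1)
      exact hz2 d hd hzd
    refine ⟨d, hd, ?_⟩
    intro u hu hcu
    by_cases h : u ∈ D
    · simp only [h, if_true] at hcu
      rw [hcu]
      exact (h2 d hd d hd).2 rfl
    · simp only [h, if_false] at hcu
      rw [← hcu]
      exact hc2 u hu

theorem hasF_iso {V V' : Type*} [Fintype V] [Fintype V'] {G : SimpleGraph V} {G' : SimpleGraph V'} (e : G ≃g G')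
    (h : HasF G) : HasF G' := by
  obtain ⟨D, s, h1, h2, h3⟩ := h
  refine ⟨D.image e, fun v' => e (s (e.symm v')), ?_, ?_, ?_⟩
  · intro v'
    obtain ⟨d, hd, hdv⟩ := h1 (e.symm v')
    refine ⟨e d, Finset.mem_image_of_mem e hd, ?_⟩
    rw [← e.apply_symm_apply v', Cri_iso]
    exact hdv
  · intro d₁ hd₁ d₂ hd₂
    obtain ⟨d, hd, rfl⟩ := Finset.mem_image.1 hd₁
    obtain ⟨d', hd', rfl⟩ := Finset.mem_image.1 hd₂
    change e d' ∈ cn G' (e (s (e.symm (e d)))) ↔ e d' = e d
    rw [e.symm_apply_apply, Cri_iso, h2 d hd d' hd']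
    exact ⟨fun h => congrArg e h, fun h => e.injective h⟩
  · intro v' hv'
    obtain ⟨z, hz1, hz2⟩ := h3 (e.symm v') (by
      intro d hd he
      apply hv' (e d) (Finset.mem_image_of_mem e hd)
      change v' = e (s (e.symm (e d)))
      rw [e.symm_apply_apply, ← he, e.apply_symm_apply])
    refine ⟨e z, ?_, ?_⟩
    · rw [← e.apply_symm_apply v', Cri_iso]
      exact hz1
    · intro d₁ hd₁
      obtain ⟨d, hd, rfl⟩ := Finset.mem_image.1 hd₁
      change e z ∉ cn G' (e (s (e.symm (e d))))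
      rw [e.symm_apply_apply, Cri_iso]
      exact hz2 d hd

theorem hasP_of_retract {V : Type*} [Fintype V] (G : SimpleGraph V) (A : Finset V) (f : V → V)
    (hA : ∀ a ∈ A, ∀ b ∈ A, ¬ G.Adj a b) (hf : ∀ v, f v ∈ A) (hfa : ∀ a ∈ A, f a = a)
    (hc : ∀ u v, f u = f v → u ≠ v → G.Adj u v) : HasP G A Finset.univ f := by
  refine ⟨Finset.subset_univ _, ?_, fun u _ => hf u, hfa, ?_, ?_⟩
  · intro v
    refine ⟨f v, hf v, ?_⟩
    rw [Cri_mem]
    by_cases h : f v = v
    · exact Or.inl h
    · refine Or.inr (hc v (f v) ?_ (fun h' => h h'.symm))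
      rw [hfa _ (hf v)]
  · intro a ha
    refine ⟨a, Finset.subset_univ _, ?_⟩
    intro b hb
    rw [Cri_mem]
    constructor
    · rintro (h | h)
      · exact h
      · exact absurd h (hA a ha b hb)
    · intro h
      exact Or.inl h
  · intro v _
    refine ⟨f v, hf v, ?_⟩
    intro u _ hu
    rw [Cri_mem]
    by_cases h : u = v
    · exact Or.inl h
    · exact Or.inr (hc v u hu.symm (fun h' => h h'.symm))

theorem vNumber_le_reg_of_hasF {V : Type*} [Fintype V] (K : Type*) [Field K] (G : SimpleGraph V) (h : HasF G) :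
    vNumber (ngIdeal K G) ≤ reg (ngIdeal K G) := by
  obtain ⟨D, W, c, hP⟩ := hasP_of_hasF G h
  exact le_trans (vNumber_le_of_hasP K G D W c hP) (le_reg_of_hasP K G D W c hP)

end

end Pool.Agent.helper37.VN
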