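import Pool.Agent.helper37.VN.Asy
import Pool.Agent.helper37.VN.Cri

set_option autoImplicit false

/-!
# VN-13: almost all connected graphs have the structure `HasF`

For `n ≥ 8` let `k = k(n)` be the largest `k` with `4 k 2^k ≤ n` (`Nat.findGreatest`); it tends to infinity with `n`.
`n < 4 (k+1) 2^(k+1)`. Put `r = n - k²`; for `k ≥ 1`, as `k² ≤ k 2^k`, `3 k 2^k ≤ r` and `r ≤ n ≤ 16 k 2^k`. By
`err_small` and `cnt_notF` the number of graphs without `HasF` on `(Fin k × Fin k) ⊕ Fin r` is at most `ε` times the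
number of all graphs. An equivalence `Fin n ≃ (Fin k × Fin k) ⊕ Fin r` (cardinalities: `k * k + r = n`) transports this
to `Fin n` (`hasF_iso`, `SimpleGraph.mapEquiv`-like bijection of the sets of graphs: `e.simpleGraph`, `cnt_equiv`).
At least half of the graphs are connected: a graph or its complement is connected (for `n ≥ 1`), and the complement is a
bijection of the set of graphs. So the proportion of the connected graphs without `HasF` among the connected graphs is
at most `2 ε`.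
-/

namespace Pool.Agent.helper37.VN

open Filter Topology

noncomputable section

private theorem Alm_k (K n : ℕ) (hK : 1 ≤ K) (hn : 4 * K * 2 ^ K ≤ n) :
    ∃ k r : ℕ, K ≤ k ∧ 3 * k * 2 ^ k ≤ r ∧ r ≤ 16 * k * 2 ^ k ∧ k * k + r = n := by
  have h2K : 1 ≤ 2 ^ K := Nat.one_le_two_pow
  have hKn : K ≤ n := by nlinarith
  refine ⟨Nat.findGreatest (fun k => 4 * k * 2 ^ k ≤ n) n, ?_⟩
  set k := Nat.findGreatest (fun k => 4 * k * 2 ^ k ≤ n) n with hk
  have h1 : K ≤ k := Nat.le_findGreatest hKn hn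
  have h2 : 4 * k * 2 ^ k ≤ n := Nat.findGreatest_spec (P := fun k => 4 * k * 2 ^ k ≤ n) hKn hn
  have h3 : n < 4 * (k + 1) * 2 ^ (k + 1) := by
    by_contra hcon
    push Not at hcon
    have h2k : 1 ≤ 2 ^ (k + 1) := Nat.one_le_two_pow
    have h4 : k + 1 ≤ n := by nlinarith
    have h5 : k + 1 ≤ k := Nat.le_findGreatest h4 hcon
    omega
  have h6 : k ≤ 2 ^ k := Nat.lt_two_pow_self.le
  have h7 : k * k ≤ k * 2 ^ k := Nat.mul_le_mul_left k h6
  have h8 : 4 * k * 2 ^ k = 4 * (k * 2 ^ k) := by ring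
  have h9 : 3 * k * 2 ^ k = 3 * (k * 2 ^ k) := by ring
  have h10 : 16 * k * 2 ^ k = 16 * (k * 2 ^ k) := by ring
  have h11 : 4 * (k + 1) * 2 ^ (k + 1) = 8 * (k * 2 ^ k) + 8 * 2 ^ k := by ring
  have h12 : 2 ^ k ≤ k * 2 ^ k := Nat.le_mul_of_pos_left _ (by omega)
  refine ⟨n - k * k, h1, ?_, ?_, ?_⟩
  · omega
  · omega
  · omega

private theorem Alm_split {n : ℕ} :
    cnt (fun G : SimpleGraph (Fin n) => G.Connected) =
      cnt (fun G : SimpleGraph (Fin n) => G.Connected ∧ HasF G) +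
      cnt (fun G : SimpleGraph (Fin n) => G.Connected ∧ ¬ HasF G) := by
  classical
  have := Fintype.ofFinite (SimpleGraph (Fin n))
  rw [cnt_eq_sum, cnt_eq_sum, cnt_eq_sum, ← Finset.sum_add_distrib]
  apply Finset.sum_congr rfl
  intro G _
  by_cases h1 : G.Connected <;> by_cases h2 : HasF G <;> simp [h1, h2]

theorem cnt_notF_fin (ε : ℝ) (hε : 0 < ε) : ∃ n₀ : ℕ, ∀ n : ℕ, n₀ ≤ n →
    cnt (fun G : SimpleGraph (Fin n) => ¬ HasF G) ≤ ε * (Nat.card (SimpleGraph (Fin n)) : ℝ) := by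
  obtain ⟨k₀, hk₀⟩ := err_small ε hε
  refine ⟨4 * (k₀ + 1) * 2 ^ (k₀ + 1), ?_⟩
  intro n hn
  obtain ⟨k, r, hk, hr1, hr2, hkr⟩ := Alm_k (k₀ + 1) n (by omega) hn
  obtain ⟨h, m, Y, hY0, hY1, hY2, herr⟩ := hk₀ k r (by omega) hr1 hr2
  have key := cnt_notF k r h m Y (by omega) hY0 hY1 hY2
  have hcard : Fintype.card (Fin n) = Fintype.card ((Fin k × Fin k) ⊕ Fin r) := by
    rw [Fintype.card_sum, Fintype.card_prod, Fintype.card_fin, Fintype.card_fin, Fintype.card_fin, hkr]
  have e : Fin n ≃ (Fin k × Fin k) ⊕ Fin r := Fintype.equivOfCardEq hcard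
  have h1 : cnt (fun G : SimpleGraph (Fin n) => ¬ HasF G) =
      cnt (fun G : SimpleGraph ((Fin k × Fin k) ⊕ Fin r) => ¬ HasF G) := by
    rw [← cnt_equiv e.simpleGraph]
    apply cnt_congr
    intro G
    have hiso : e.simpleGraph G ≃g G := SimpleGraph.Iso.comap e.symm G
    exact ⟨fun hG hG' => hG (hasF_iso hiso hG'), fun hG hG' => hG (hasF_iso hiso.symm hG')⟩
  rw [h1, Nat.card_congr e.simpleGraph]
  exact key.trans (mul_le_mul_of_nonneg_right herr (Nat.cast_nonneg _))

theorem half_connected (n : ℕ) (hn : 1 ≤ n) :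
    (Nat.card (SimpleGraph (Fin n)) : ℝ) ≤ 2 * cnt (fun G : SimpleGraph (Fin n) => G.Connected) := by
  have : Nonempty (Fin n) := ⟨⟨0, hn⟩⟩
  have h1 : cnt (fun G : SimpleGraph (Fin n) => Gᶜ.Connected) =
      cnt (fun G : SimpleGraph (Fin n) => G.Connected) := by
    exact cnt_equiv (compl_involutive (α := SimpleGraph (Fin n))).toPerm
      (fun G : SimpleGraph (Fin n) => G.Connected)
  rw [← cnt_true]
  calc cnt (fun _ : SimpleGraph (Fin n) => True)
      ≤ cnt (fun G : SimpleGraph (Fin n) => G.Connected ∨ Gᶜ.Connected) := by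
        apply cnt_mono
        intro G _
        rcases G.connected_or_preconnected_compl with h | h
        · exact Or.inl h
        · exact Or.inr ⟨h⟩
    _ ≤ cnt (fun G : SimpleGraph (Fin n) => G.Connected) +
        cnt (fun G : SimpleGraph (Fin n) => Gᶜ.Connected) := cnt_or_le _ _
    _ = 2 * cnt (fun G : SimpleGraph (Fin n) => G.Connected) := by
        rw [h1]
        ring

theorem tendsto_hasF :
    Tendsto (fun n : ℕ => cnt (fun G : SimpleGraph (Fin n) => G.Connected ∧ HasF G) /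
      cnt (fun G : SimpleGraph (Fin n) => G.Connected)) atTop (𝓝 1) := by
  rw [Metric.tendsto_atTop]
  intro ε hε
  obtain ⟨n₀, hn₀⟩ := cnt_notF_fin (ε / 4) (by positivity)
  refine ⟨n₀ + 1, ?_⟩
  intro n hn
  have h1 := hn₀ n (by omega)
  have h2 := half_connected n (by omega)
  have hc : (0 : ℝ) < (Nat.card (SimpleGraph (Fin n)) : ℝ) := by
    have : 0 < Nat.card (SimpleGraph (Fin n)) := Nat.card_pos
    exact_mod_cast this
  have h3 : 0 < cnt (fun G : SimpleGraph (Fin n) => G.Connected) := by linarith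
  have h4 := Alm_split (n := n)
  have h5 : cnt (fun G : SimpleGraph (Fin n) => G.Connected ∧ ¬ HasF G) ≤
      cnt (fun G : SimpleGraph (Fin n) => ¬ HasF G) := cnt_mono fun G hG => hG.2
  have h6 := cnt_nonneg (fun G : SimpleGraph (Fin n) => G.Connected ∧ ¬ HasF G)
  rw [Real.dist_eq]
  have h7 : cnt (fun G : SimpleGraph (Fin n) => G.Connected ∧ HasF G) /
      cnt (fun G : SimpleGraph (Fin n) => G.Connected) - 1 =
      -(cnt (fun G : SimpleGraph (Fin n) => G.Connected ∧ ¬ HasF G) /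
        cnt (fun G : SimpleGraph (Fin n) => G.Connected)) := by
    rw [div_sub_one h3.ne', ← neg_div]
    congr 1
    linarith
  rw [h7, abs_neg, abs_of_nonneg (div_nonneg h6 h3.le), div_lt_iff₀ h3]
  have h8 : ε / 4 * (Nat.card (SimpleGraph (Fin n)) : ℝ) ≤
      ε / 4 * (2 * cnt (fun G : SimpleGraph (Fin n) => G.Connected)) :=
    mul_le_mul_of_nonneg_left h2 (by positivity)
  have h9 : 0 < ε * cnt (fun G : SimpleGraph (Fin n) => G.Connected) := mul_pos hε h3
  linarith

end

end Pool.Agent.helper37.VN
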