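import Pool.Agent.helper37.VN.Tot

set_option autoImplicit false

/-!
# VN-12: the error term tends to zero

`3 k 2^k ≤ r ≤ 16 k 2^k`, `h = k / 2`, `Y = 32 k`, `m = Nat.clog 2 (32 k)` (so `32 k ≤ 2^m` and, for `k ≥ 1`,
`m ≤ 6 + Nat.log 2 k`).

Each of the six terms is bounded by a function of `k` only which tends to zero:
* `r / (2^k - 1) ≤ 2 r / 2^k ≤ 32 k` for `k ≥ 1`.
* term 1: `2 * 32 k / 2^k * ((k+1)/k)^k ≤ 64 k * 3 / 2^k` (`(1 + 1/k)^k ≤ exp 1`).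
* term 2: `exp (32 k) * 2^k * k^m / k^k ≤ (2 e^32)^k * k^(6 + log_2 k) / k^k`; e.g. `k^(6 + log2 k) ≤ k^(k/2)` for large
  `k`, and `(2 e^32)^k / k^(k/2) = (2 e^32 / √k)^k → 0`.
* term 3: `2^(k²) (1 - 2^{-h})^r ≤ 2^(k²) exp (- r 2^{-h}) ≤ 2^(k²) exp (-3 k 2^(k - k/2)) → 0`.
* term 4: `k² 2^{-(k/2+1)} → 0`.
* term 5: `r (1 - 2^{-(k+1)})^{r-(k+1)} ≤ 16 k 2^k exp (-(r - (k+1)) 2^{-(k+1)}) ≤ 16 k 2^k exp (-3k/2 + 1) → 0` because
  `2 < e^{3/2}` (`(k+1) 2^{-(k+1)} ≤ 1`).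
* term 6: `(1 - 2^{-k})^k ≥ 1 - k 2^{-k} ≥ 1/2` (Bernoulli), so the term is at most `2 k² exp (-3k/2) → 0`.
-/

namespace Pool.Agent.helper37.VN

noncomputable section

private theorem Asy_T1 (k : ℕ) (hk : 1 ≤ k) :
    2 * (32 * (k : ℝ)) / (2 : ℝ) ^ k * (((k : ℝ) + 1) / k) ^ k ≤
      192 * ((k : ℝ) ^ 2 * (9 / 10) ^ k) := by
  have hk0 : (0 : ℝ) < k := by exact_mod_cast hk
  have hk1 : (1 : ℝ) ≤ k := by exact_mod_cast hk
  have h1 : (((k : ℝ) + 1) / k) ^ k ≤ 3 := by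
    have h2 : ((k : ℝ) + 1) / k ≤ Real.exp (1 / k) := by
      have h3 := Real.add_one_le_exp (1 / (k : ℝ))
      have h4 : ((k : ℝ) + 1) / k = 1 / k + 1 := by
        field_simp
        ring
      rw [h4]
      exact h3
    calc (((k : ℝ) + 1) / k) ^ k ≤ (Real.exp (1 / k)) ^ k :=
          pow_le_pow_left₀ (by positivity) h2 k
      _ = Real.exp 1 := by
          rw [← Real.exp_nat_mul]
          congr 1
          field_simp
      _ ≤ 3 := by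
          have := Real.exp_one_lt_d9
          linarith
  have h5 : (1 / 2 : ℝ) ^ k ≤ (9 / 10) ^ k := pow_le_pow_left₀ (by norm_num) (by norm_num) k
  have h6 : 2 * (32 * (k : ℝ)) / (2 : ℝ) ^ k = 64 * k * (1 / 2) ^ k := by
    rw [one_div, inv_pow]
    ring
  rw [h6]
  have h7 : (0 : ℝ) < (1 / 2) ^ k := by positivity
  calc 64 * (k : ℝ) * (1 / 2) ^ k * (((k : ℝ) + 1) / k) ^ k ≤ 64 * k * (1 / 2) ^ k * 3 :=
        mul_le_mul_of_nonneg_left h1 (by positivity)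
    _ = 192 * (k * (1 / 2) ^ k) := by ring
    _ ≤ 192 * ((k : ℝ) ^ 2 * (9 / 10) ^ k) := by
        have h8 : (k : ℝ) ≤ (k : ℝ) ^ 2 := by nlinarith
        have h9 : (k : ℝ) * (1 / 2) ^ k ≤ (k : ℝ) ^ 2 * (9 / 10) ^ k :=
          mul_le_mul h8 h5 h7.le (by positivity)
        linarith

private theorem Asy_half_pow (h : ℕ) (hh : 10 ≤ h) : 64 * h + 32 ≤ 2 ^ h := by
  induction h, hh using Nat.le_induction with
  | base => norm_num
  | succ n hn ih =>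
    rw [pow_succ]
    omega

private theorem Asy_m (k : ℕ) (hk : 20 ≤ k) : 2 * Nat.clog 2 (32 * k) ≤ k := by
  have h1 := Asy_half_pow (k / 2) (by omega)
  have h2 : Nat.clog 2 (32 * k) ≤ k / 2 := by
    apply Nat.clog_le_of_le_pow
    have h3 : 32 * k ≤ 64 * (k / 2) + 32 := by omega
    exact h3.trans h1
  omega

private theorem Asy_T2 (k m : ℕ) (hk : 1 ≤ k) (hm : 2 * m ≤ k) (hs : 4 * Real.exp 32 ≤ √(k : ℝ)) :
    Real.exp (32 * (k : ℝ)) * (2 : ℝ) ^ k * (k : ℝ) ^ m / (k : ℝ) ^ k ≤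
      (k : ℝ) ^ 2 * (9 / 10) ^ k := by
  have hk1 : (1 : ℝ) ≤ k := by exact_mod_cast hk
  obtain ⟨s, hs'⟩ : ∃ s, s = √(k : ℝ) := ⟨_, rfl⟩
  rw [← hs'] at hs
  have he : (0 : ℝ) < Real.exp 32 := Real.exp_pos _
  have hs0 : 0 < s := by linarith
  have hs1 : 1 ≤ s := by
    rw [hs', Real.one_le_sqrt]
    exact hk1
  have hks : (k : ℝ) = s ^ 2 := by
    rw [hs', Real.sq_sqrt (by positivity)]
  have h1 : (k : ℝ) ^ m ≤ s ^ k := by
    rw [hks, ← pow_mul]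
    exact pow_le_pow_right₀ hs1 hm
  have h2 : (k : ℝ) ^ k = s ^ k * s ^ k := by
    conv_lhs => rw [hks]
    rw [← pow_mul, mul_comm, pow_mul, pow_two]
  have h3 : Real.exp (32 * (k : ℝ)) = (Real.exp 32) ^ k := by
    rw [← Real.exp_nat_mul, mul_comm]
  have hsk : 0 < s ^ k := by positivity
  calc Real.exp (32 * (k : ℝ)) * (2 : ℝ) ^ k * (k : ℝ) ^ m / (k : ℝ) ^ k
      ≤ Real.exp (32 * (k : ℝ)) * (2 : ℝ) ^ k * s ^ k / (k : ℝ) ^ k := by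
        apply div_le_div_of_nonneg_right _ (by positivity)
        exact mul_le_mul_of_nonneg_left h1 (by positivity)
    _ = (Real.exp 32 * 2 / s) ^ k := by
        rw [h2, h3, div_pow, mul_pow]
        field_simp
    _ ≤ (9 / 10) ^ k := by
        apply pow_le_pow_left₀ (by positivity)
        rw [div_le_iff₀ hs0]
        linarith
    _ ≤ (k : ℝ) ^ 2 * (9 / 10) ^ k := by
        have h8 : (1 : ℝ) ≤ (k : ℝ) ^ 2 := by nlinarith
        have h9 : (0 : ℝ) < (9 / 10) ^ k := by positivity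
        nlinarith

private theorem Asy_pow_exp {x : ℝ} (hx : x ≤ 1) (r : ℕ) : (1 - x) ^ r ≤ Real.exp (-(x * r)) := by
  have h1 : 1 - x ≤ Real.exp (-x) := Real.one_sub_le_exp_neg x
  calc (1 - x) ^ r ≤ (Real.exp (-x)) ^ r := pow_le_pow_left₀ (by linarith) h1 r
    _ = Real.exp (-(x * r)) := by
        rw [← Real.exp_nat_mul]
        congr 1
        ring

private theorem Asy_T3 (k r : ℕ) (hk : 1 ≤ k) (hr : 3 * k * 2 ^ k ≤ r) :
    (2 : ℝ) ^ (k ^ 2) * (1 - (1 / 2 : ℝ) ^ (k / 2)) ^ r ≤ (k : ℝ) ^ 2 * (9 / 10) ^ k := by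
  have hk1 : (1 : ℝ) ≤ k := by exact_mod_cast hk
  have hr' : 3 * (k : ℝ) * 2 ^ k ≤ r := by exact_mod_cast hr
  obtain ⟨h, hh⟩ : ∃ h, h = k / 2 := ⟨_, rfl⟩
  rw [← hh]
  have hx1 : (1 / 2 : ℝ) ^ h ≤ 1 := pow_le_one₀ (by norm_num) (by norm_num)
  have h1 := Asy_pow_exp hx1 r
  have h2 : (2 : ℝ) ^ (k ^ 2) ≤ Real.exp ((k : ℝ) ^ 2) := by
    have h3 : (2 : ℝ) ≤ Real.exp 1 := by
      have := Real.add_one_le_exp (1 : ℝ)
      linarith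
    calc (2 : ℝ) ^ (k ^ 2) ≤ (Real.exp 1) ^ (k ^ 2) := pow_le_pow_left₀ (by norm_num) h3 _
      _ = Real.exp ((k : ℝ) ^ 2) := by
          rw [← Real.exp_nat_mul]
          congr 1
          push_cast
          ring
  have h4 : 3 * (k : ℝ) * ((k : ℝ) / 2 + 1) ≤ (1 / 2 : ℝ) ^ h * r := by
    have h5 : (1 / 2 : ℝ) ^ h * 2 ^ k = 2 ^ (k - h) := by
      have h6 : (2 : ℝ) ^ k = 2 ^ h * 2 ^ (k - h) := by
        rw [← pow_add]
        congr 1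
        omega
      rw [h6, ← mul_assoc, ← mul_pow]
      norm_num
    have h7 : (k : ℝ) / 2 + 1 ≤ 2 ^ (k - h) := by
      have h8 : k - h + 1 ≤ 2 ^ (k - h) := Nat.lt_two_pow_self
      have h9 : ((k - h : ℕ) : ℝ) + 1 ≤ 2 ^ (k - h) := by exact_mod_cast h8
      have h10 : (k : ℝ) / 2 ≤ ((k - h : ℕ) : ℝ) := by
        rw [div_le_iff₀ (by norm_num)]
        have : k ≤ (k - h) * 2 := by omega
        exact_mod_cast this
      linarith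
    calc 3 * (k : ℝ) * ((k : ℝ) / 2 + 1) ≤ 3 * k * 2 ^ (k - h) :=
          mul_le_mul_of_nonneg_left h7 (by positivity)
      _ = (1 / 2 : ℝ) ^ h * (3 * k * 2 ^ k) := by rw [← h5]; ring
      _ ≤ (1 / 2 : ℝ) ^ h * r := mul_le_mul_of_nonneg_left hr' (by positivity)
  have h11 : (0 : ℝ) ≤ (1 - (1 / 2 : ℝ) ^ h) ^ r := pow_nonneg (by linarith) _
  calc (2 : ℝ) ^ (k ^ 2) * (1 - (1 / 2 : ℝ) ^ h) ^ r
      ≤ Real.exp ((k : ℝ) ^ 2) * Real.exp (-((1 / 2 : ℝ) ^ h * r)) :=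
        mul_le_mul h2 h1 h11 (Real.exp_pos _).le
    _ = Real.exp ((k : ℝ) ^ 2 + -((1 / 2 : ℝ) ^ h * r)) := (Real.exp_add _ _).symm
    _ ≤ Real.exp (k * (-1)) := by
        apply Real.exp_le_exp.2
        nlinarith
    _ = (Real.exp (-1)) ^ k := by rw [← Real.exp_nat_mul]
    _ ≤ (9 / 10) ^ k := by
        apply pow_le_pow_left₀ (Real.exp_pos _).le
        rw [Real.exp_neg, inv_le_comm₀ (Real.exp_pos _) (by norm_num)]
        have := Real.add_one_le_exp (1 : ℝ)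
        norm_num
        linarith
    _ ≤ (k : ℝ) ^ 2 * (9 / 10) ^ k := by
        have h8 : (1 : ℝ) ≤ (k : ℝ) ^ 2 := by nlinarith
        have h9 : (0 : ℝ) < (9 / 10) ^ k := by positivity
        nlinarith

private theorem Asy_T4 (k : ℕ) :
    (k : ℝ) ^ 2 * (1 / 2 : ℝ) ^ (k / 2 + 1) ≤ (k : ℝ) ^ 2 * (9 / 10) ^ k := by
  apply mul_le_mul_of_nonneg_left _ (by positivity)
  calc (1 / 2 : ℝ) ^ (k / 2 + 1) ≤ (9 / 10) ^ (2 * (k / 2) + 1) := by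
        rw [pow_succ, pow_succ, pow_mul]
        apply mul_le_mul _ (by norm_num) (by norm_num) (by positivity)
        exact pow_le_pow_left₀ (by norm_num) (by norm_num) _
    _ ≤ (9 / 10) ^ k := pow_le_pow_of_le_one (by norm_num) (by norm_num) (by omega)

private theorem Asy_exp32 : Real.exp (-(3 / 2)) ≤ 2 / 5 := by
  rw [Real.exp_neg, inv_le_comm₀ (Real.exp_pos _) (by norm_num)]
  have := Real.add_one_le_exp (3 / 2 : ℝ)
  norm_num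
  linarith

private theorem Asy_xr (k r : ℕ) (hr : 3 * k * 2 ^ k ≤ r) :
    3 / 2 * (k : ℝ) ≤ (1 / 2 : ℝ) ^ (k + 1) * r := by
  have hr' : 3 * (k : ℝ) * 2 ^ k ≤ r := by exact_mod_cast hr
  calc 3 / 2 * (k : ℝ) = (1 / 2 : ℝ) ^ (k + 1) * (3 * k * 2 ^ k) := by
        have h1 : (1 / 2 : ℝ) ^ k * 2 ^ k = 1 := by
          rw [← mul_pow]
          norm_num
        rw [pow_succ]
        linear_combination (-(3 / 2 * (k : ℝ))) * h1
    _ ≤ (1 / 2 : ℝ) ^ (k + 1) * r := mul_le_mul_of_nonneg_left hr' (by positivity)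

private theorem Asy_T5 (k r : ℕ) (hk : 1 ≤ k) (hr : 3 * k * 2 ^ k ≤ r)
    (hr2 : r ≤ 16 * k * 2 ^ k) :
    (r : ℝ) * (1 - (1 / 2 : ℝ) ^ (k + 1)) ^ (r - (k + 1)) ≤ 48 * ((k : ℝ) ^ 2 * (9 / 10) ^ k) := by
  have hk1 : (1 : ℝ) ≤ k := by exact_mod_cast hk
  have hr' : (r : ℝ) ≤ 16 * (k : ℝ) * 2 ^ k := by exact_mod_cast hr2
  have hx1 : (1 / 2 : ℝ) ^ (k + 1) ≤ 1 := pow_le_one₀ (by norm_num) (by norm_num)
  have h1 := Asy_pow_exp hx1 (r - (k + 1))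
  have h2 := Asy_xr k r hr
  have hkr : k + 1 ≤ r := by
    have h3 : k + 1 ≤ 2 ^ k := Nat.lt_two_pow_self
    calc k + 1 ≤ 2 ^ k := h3
      _ ≤ 3 * k * 2 ^ k := Nat.le_mul_of_pos_left _ (by omega)
      _ ≤ r := hr
  have h3 : ((r - (k + 1) : ℕ) : ℝ) = (r : ℝ) - (k + 1) := by
    rw [Nat.cast_sub hkr]
    push_cast
    ring
  have h4 : (1 / 2 : ℝ) ^ (k + 1) * ((k : ℝ) + 1) ≤ 1 := by
    have h5 : k + 1 ≤ 2 ^ (k + 1) := Nat.lt_two_pow_self.le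
    have h6 : (k : ℝ) + 1 ≤ 2 ^ (k + 1) := by exact_mod_cast h5
    calc (1 / 2 : ℝ) ^ (k + 1) * ((k : ℝ) + 1) ≤ (1 / 2 : ℝ) ^ (k + 1) * 2 ^ (k + 1) :=
          mul_le_mul_of_nonneg_left h6 (by positivity)
      _ = 1 := by
          rw [← mul_pow]
          norm_num
  rw [h3] at h1
  have h5 : (1 - (1 / 2 : ℝ) ^ (k + 1)) ^ (r - (k + 1)) ≤ 3 * (2 / 5) ^ k := by
    calc (1 - (1 / 2 : ℝ) ^ (k + 1)) ^ (r - (k + 1))
        ≤ Real.exp (-((1 / 2 : ℝ) ^ (k + 1) * ((r : ℝ) - (k + 1)))) := h1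
      _ ≤ Real.exp (1 + k * (-(3 / 2))) := by
          apply Real.exp_le_exp.2
          nlinarith
      _ = Real.exp 1 * (Real.exp (-(3 / 2))) ^ k := by
          rw [Real.exp_add, ← Real.exp_nat_mul]
      _ ≤ 3 * (2 / 5) ^ k := by
          apply mul_le_mul _ (pow_le_pow_left₀ (Real.exp_pos _).le Asy_exp32 k) (by positivity)
            (by norm_num)
          have := Real.exp_one_lt_d9
          linarith
  calc (r : ℝ) * (1 - (1 / 2 : ℝ) ^ (k + 1)) ^ (r - (k + 1))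
      ≤ (16 * (k : ℝ) * 2 ^ k) * (3 * (2 / 5) ^ k) :=
        mul_le_mul hr' h5 (pow_nonneg (by linarith) _) (by positivity)
    _ = 48 * ((k : ℝ) * (4 / 5) ^ k) := by
        have h6 : (2 : ℝ) ^ k * (2 / 5) ^ k = (4 / 5) ^ k := by
          rw [← mul_pow]
          norm_num
        rw [← h6]
        ring
    _ ≤ 48 * ((k : ℝ) ^ 2 * (9 / 10) ^ k) := by
        have h8 : (k : ℝ) ≤ (k : ℝ) ^ 2 := by nlinarith
        have h7 : (4 / 5 : ℝ) ^ k ≤ (9 / 10) ^ k :=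
          pow_le_pow_left₀ (by norm_num) (by norm_num) k
        have h9 : (k : ℝ) * (4 / 5) ^ k ≤ (k : ℝ) ^ 2 * (9 / 10) ^ k :=
          mul_le_mul h8 h7 (by positivity) (by positivity)
        linarith

private theorem Asy_T6 (k r : ℕ) (hk : 1 ≤ k) (hr : 3 * k * 2 ^ k ≤ r) :
    (k : ℝ) ^ 2 * (((1 - (1 / 2 : ℝ) ^ k) ^ k)⁻¹ * (1 - (1 / 2 : ℝ) ^ (k + 1)) ^ r) ≤
      2 * ((k : ℝ) ^ 2 * (9 / 10) ^ k) := by
  have hk1 : (1 : ℝ) ≤ k := by exact_mod_cast hk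
  have hx1 : (1 / 2 : ℝ) ^ (k + 1) ≤ 1 := pow_le_one₀ (by norm_num) (by norm_num)
  have hx2 : (1 / 2 : ℝ) ^ k ≤ 1 := pow_le_one₀ (by norm_num) (by norm_num)
  have h1 := Asy_pow_exp hx1 r
  have h2 := Asy_xr k r hr
  have h3 : (1 - (1 / 2 : ℝ) ^ (k + 1)) ^ r ≤ (9 / 10) ^ k := by
    calc (1 - (1 / 2 : ℝ) ^ (k + 1)) ^ r ≤ Real.exp (-((1 / 2 : ℝ) ^ (k + 1) * r)) := h1
      _ ≤ Real.exp (k * (-(3 / 2))) := by
          apply Real.exp_le_exp.2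
          linarith
      _ = (Real.exp (-(3 / 2))) ^ k := by rw [← Real.exp_nat_mul]
      _ ≤ (9 / 10) ^ k := by
          apply pow_le_pow_left₀ (Real.exp_pos _).le
          exact Asy_exp32.trans (by norm_num)
  have h4 : (1 / 2 : ℝ) ≤ (1 - (1 / 2 : ℝ) ^ k) ^ k := by
    have h5 := one_add_mul_le_pow (a := -((1 / 2 : ℝ) ^ k)) (by linarith) k
    have h6 : (k : ℝ) * (1 / 2) ^ k ≤ 1 / 2 := by
      obtain ⟨j, rfl⟩ : ∃ j, k = j + 1 := ⟨k - 1, by omega⟩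
      have h7 : j + 1 ≤ 2 ^ j := Nat.lt_two_pow_self
      have h8 : ((j + 1 : ℕ) : ℝ) ≤ 2 ^ j := by exact_mod_cast h7
      calc ((j + 1 : ℕ) : ℝ) * (1 / 2) ^ (j + 1) ≤ 2 ^ j * (1 / 2) ^ (j + 1) :=
            mul_le_mul_of_nonneg_right h8 (by positivity)
        _ = 1 / 2 := by
            rw [pow_succ, ← mul_assoc, ← mul_pow]
            norm_num
    have h7 : 1 + -((1 / 2 : ℝ) ^ k) = 1 - (1 / 2 : ℝ) ^ k := by ring
    rw [h7] at h5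
    linarith
  have h5 : ((1 - (1 / 2 : ℝ) ^ k) ^ k)⁻¹ ≤ 2 := by
    rw [inv_le_comm₀ (by linarith) (by norm_num)]
    linarith
  have h6 : (0 : ℝ) ≤ (1 - (1 / 2 : ℝ) ^ (k + 1)) ^ r := pow_nonneg (by linarith) _
  have h7 : ((1 - (1 / 2 : ℝ) ^ k) ^ k)⁻¹ * (1 - (1 / 2 : ℝ) ^ (k + 1)) ^ r ≤ 2 * (9 / 10) ^ k :=
    mul_le_mul h5 h3 h6 (by norm_num)
  calc (k : ℝ) ^ 2 * (((1 - (1 / 2 : ℝ) ^ k) ^ k)⁻¹ * (1 - (1 / 2 : ℝ) ^ (k + 1)) ^ r)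
      ≤ (k : ℝ) ^ 2 * (2 * (9 / 10) ^ k) := mul_le_mul_of_nonneg_left h7 (by positivity)
    _ = 2 * ((k : ℝ) ^ 2 * (9 / 10) ^ k) := by ring

theorem err_small (ε : ℝ) (hε : 0 < ε) : ∃ k₀ : ℕ, ∀ k r : ℕ, k₀ ≤ k → 3 * k * 2 ^ k ≤ r → r ≤ 16 * k * 2 ^ k →
    ∃ (h m : ℕ) (Y : ℝ), 0 ≤ Y ∧ (r : ℝ) / ((2 : ℝ) ^ k - 1) ≤ Y ∧ Y ≤ (2 : ℝ) ^ m ∧ err k r h m Y ≤ ε := by
  have hlim : Filter.Tendsto (fun n : ℕ => 245 * ((n : ℝ) ^ 2 * (9 / 10 : ℝ) ^ n)) Filter.atTop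
      (nhds 0) := by
    have h1 := tendsto_pow_const_mul_const_pow_of_abs_lt_one 2 (r := (9 / 10 : ℝ))
      (by rw [abs_of_pos (by norm_num)]; norm_num)
    have h2 := h1.const_mul (245 : ℝ)
    rwa [mul_zero] at h2
  have hev := hlim.eventually (ge_mem_nhds hε)
  obtain ⟨k₁, hk₁⟩ := Filter.eventually_atTop.1 hev
  obtain ⟨k₂, hk₂⟩ := exists_nat_ge ((4 * Real.exp 32) ^ 2)
  refine ⟨max 20 (max k₁ k₂), ?_⟩
  intro k r hk hr hr2
  have hk20 : 20 ≤ k := (le_max_left _ _).trans hk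
  have hkk1 : k₁ ≤ k := ((le_max_left _ _).trans (le_max_right _ _)).trans hk
  have hkk2 : k₂ ≤ k := ((le_max_right _ _).trans (le_max_right _ _)).trans hk
  have hk1 : 1 ≤ k := by omega
  have hkr : (1 : ℝ) ≤ k := by exact_mod_cast hk1
  have hs : 4 * Real.exp 32 ≤ √(k : ℝ) := by
    apply Real.le_sqrt_of_sq_le
    have h1 : (k₂ : ℝ) ≤ k := by exact_mod_cast hkk2
    linarith
  have hr' : (r : ℝ) ≤ 16 * (k : ℝ) * 2 ^ k := by exact_mod_cast hr2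
  refine ⟨k / 2, Nat.clog 2 (32 * k), 32 * (k : ℝ), by positivity, ?_, ?_, ?_⟩
  · have h2 : (2 : ℝ) ≤ 2 ^ k := by
      calc (2 : ℝ) = 2 ^ 1 := by norm_num
        _ ≤ 2 ^ k := pow_le_pow_right₀ (by norm_num) hk1
    rw [div_le_iff₀ (by linarith)]
    nlinarith
  · have h3 : 32 * k ≤ 2 ^ Nat.clog 2 (32 * k) := Nat.le_pow_clog (by norm_num) _
    exact_mod_cast h3
  · have t1 := Asy_T1 k hk1
    have t2 := Asy_T2 k (Nat.clog 2 (32 * k)) hk1 (Asy_m k hk20) hs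
    have t3 := Asy_T3 k r hk1 hr
    have t4 := Asy_T4 k
    have t5 := Asy_T5 k r hk1 hr hr2
    have t6 := Asy_T6 k r hk1 hr
    have t7 := hk₁ k hkk1
    unfold err
    linarith

end

end Pool.Agent.helper37.VN
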