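import Pool.Agent.helper37.VN.Row

set_option autoImplicit false

/-!
# VN-06: three union bounds

All from `cnt_avoid` (VN-05).

(B) For `u ∉ D` the number of graphs with no edge between `u` and `D` is `2^{-|D|}` times the number of all graphs
(complement of `cnt_avoid` with `X = D`, `Q = {u}`, pattern constantly false: `cnt_not`); sum over `u` (`cnt_exists_le`).
(C1) For `x ∉ S` use `X = insert x S`, `Q = univ \ X`, pattern: adjacent to `x`, not adjacent to the elements of `S`: the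
event implies that no `z ∈ Q` has this pattern. So its number is at most
`(1 - 2^{-(|S|+1)})^{|V|-|S|-1} ≤ (1 - 2^{-(k+1)})^{|V|-(k+1)}` times the number of all graphs (the base is in `[0, 1]`
and increases with `|S|`, the exponent decreases). Sum over `x`.
(C2) `X = S`, `Q \ S`, pattern constantly false.
-/

namespace Pool.Agent.helper37.VN

noncomputable section

private theorem Bcd_false (α : Type*) : cnt (fun _ : α => False) = 0 := by
  unfold cnt
  simp

theorem cnt_B {U : Type*} [Fintype U] (D : Finset U) :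
    cnt (fun B : SimpleGraph U => ∃ u, u ∉ D ∧ ∀ d ∈ D, ¬ B.Adj u d) ≤
      (Fintype.card U : ℝ) * (1 / 2 : ℝ) ^ D.card * (Nat.card (SimpleGraph U) : ℝ) := by
  refine (cnt_exists_le _).trans ?_
  have h : ∀ u : U, cnt (fun B : SimpleGraph U => u ∉ D ∧ ∀ d ∈ D, ¬ B.Adj u d) ≤
      (1 / 2 : ℝ) ^ D.card * (Nat.card (SimpleGraph U) : ℝ) := by
    intro u
    by_cases hu : u ∈ D
    · have : cnt (fun B : SimpleGraph U => u ∉ D ∧ ∀ d ∈ D, ¬ B.Adj u d) ≤
          cnt (fun _ : SimpleGraph U => False) := cnt_mono fun B hB => hB.1 hu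
      refine this.trans ?_
      rw [Bcd_false]
      positivity
    · have hd : Disjoint D {u} := Finset.disjoint_singleton_right.2 hu
      have h1 := cnt_avoid D {u} hd (fun _ _ => False)
      have h2 := cnt_not (fun C : SimpleGraph U => ∀ z ∈ ({u} : Finset U), ∃ x ∈ D,
        ¬ (C.Adj z x ↔ False))
      rw [h1, Finset.card_singleton, pow_one] at h2
      have h3 : cnt (fun B : SimpleGraph U => u ∉ D ∧ ∀ d ∈ D, ¬ B.Adj u d) ≤
          cnt (fun a : SimpleGraph U => ¬ ∀ z ∈ ({u} : Finset U), ∃ x ∈ D,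
            ¬ (a.Adj z x ↔ False)) := by
        refine cnt_mono fun B hB hcon => ?_
        obtain ⟨x, hx, hadj⟩ := hcon u (Finset.mem_singleton_self u)
        exact hadj (iff_false_intro (hB.2 x hx))
      refine h3.trans (le_of_eq ?_)
      rw [h2]
      ring
  calc ∑ u : U, cnt (fun B : SimpleGraph U => u ∉ D ∧ ∀ d ∈ D, ¬ B.Adj u d)
      ≤ ∑ _u : U, (1 / 2 : ℝ) ^ D.card * (Nat.card (SimpleGraph U) : ℝ) :=
        Finset.sum_le_sum fun u _ => h u
    _ = _ := by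
        rw [Finset.sum_const, Finset.card_univ, nsmul_eq_mul]
        ring

private theorem Bcd_base {i j : ℕ} (h : i ≤ j) :
    0 ≤ 1 - (1 / 2 : ℝ) ^ i ∧ 1 - (1 / 2 : ℝ) ^ i ≤ 1 - (1 / 2 : ℝ) ^ j ∧
      1 - (1 / 2 : ℝ) ^ j ≤ 1 := by
  have h1 : (1 / 2 : ℝ) ^ i ≤ 1 := pow_le_one₀ (by norm_num) (by norm_num)
  have h2 : (1 / 2 : ℝ) ^ j ≤ (1 / 2 : ℝ) ^ i :=
    pow_le_pow_of_le_one (by norm_num) (by norm_num) h
  have h3 : 0 < (1 / 2 : ℝ) ^ j := by positivity
  refine ⟨by linarith, by linarith, by linarith⟩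

theorem cnt_C1 {R : Type*} [Fintype R] (S : Finset R) (k : ℕ) (hS : S.card ≤ k) :
    cnt (fun C : SimpleGraph R => ∃ x, x ∉ S ∧ ∀ z, C.Adj x z → z ∈ S ∨ ∃ s ∈ S, C.Adj z s) ≤
      (Fintype.card R : ℝ) * (1 - (1 / 2 : ℝ) ^ (k + 1)) ^ (Fintype.card R - (k + 1)) *
        (Nat.card (SimpleGraph R) : ℝ) := by
  classical
  refine (cnt_exists_le _).trans ?_
  have hb0 := Bcd_base (le_refl (k + 1))
  have h : ∀ x : R, cnt (fun C : SimpleGraph R => x ∉ S ∧ ∀ z, C.Adj x z → z ∈ S ∨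
      ∃ s ∈ S, C.Adj z s) ≤ (1 - (1 / 2 : ℝ) ^ (k + 1)) ^ (Fintype.card R - (k + 1)) *
        (Nat.card (SimpleGraph R) : ℝ) := by
    intro x
    by_cases hx : x ∈ S
    · have : cnt (fun C : SimpleGraph R => x ∉ S ∧ ∀ z, C.Adj x z → z ∈ S ∨
          ∃ s ∈ S, C.Adj z s) ≤ cnt (fun _ : SimpleGraph R => False) :=
        cnt_mono fun B hB => hB.1 hx
      refine this.trans ?_
      rw [Bcd_false]
      exact mul_nonneg (pow_nonneg hb0.1 _) (Nat.cast_nonneg _)
    · have hd : Disjoint (insert x S) (insert x S)ᶜ := disjoint_compl_right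
      have h1 := cnt_avoid (insert x S) (insert x S)ᶜ hd (fun _ y => y = x)
      have h2 : cnt (fun C : SimpleGraph R => x ∉ S ∧ ∀ z, C.Adj x z → z ∈ S ∨
          ∃ s ∈ S, C.Adj z s) ≤ cnt (fun C : SimpleGraph R => ∀ z ∈ (insert x S)ᶜ,
            ∃ y ∈ insert x S, ¬ (C.Adj z y ↔ y = x)) := by
        refine cnt_mono fun C hC z hz => ?_
        rw [Finset.mem_compl] at hz
        by_cases hxz : C.Adj x z
        · rcases hC.2 z hxz with hzS | ⟨s, hs, hzs⟩
          · exact absurd (Finset.mem_insert_of_mem hzS) hz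
          · refine ⟨s, Finset.mem_insert_of_mem hs, fun hiff => ?_⟩
            exact hx ((hiff.1 hzs) ▸ hs)
        · refine ⟨x, Finset.mem_insert_self _ _, fun hiff => ?_⟩
          exact hxz (hiff.2 rfl).symm
      refine h2.trans ?_
      rw [h1, Finset.card_compl, Finset.card_insert_of_notMem hx]
      refine mul_le_mul_of_nonneg_right ?_ (Nat.cast_nonneg _)
      obtain ⟨b1, b2, b3⟩ := Bcd_base (show S.card + 1 ≤ k + 1 by omega)
      calc (1 - (1 / 2 : ℝ) ^ (S.card + 1)) ^ (Fintype.card R - (S.card + 1))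
          ≤ (1 - (1 / 2 : ℝ) ^ (k + 1)) ^ (Fintype.card R - (S.card + 1)) :=
            pow_le_pow_left₀ b1 b2 _
        _ ≤ (1 - (1 / 2 : ℝ) ^ (k + 1)) ^ (Fintype.card R - (k + 1)) :=
            pow_le_pow_of_le_one (b1.trans b2) b3 (by omega)
  calc ∑ x : R, cnt (fun C : SimpleGraph R => x ∉ S ∧ ∀ z, C.Adj x z → z ∈ S ∨
          ∃ s ∈ S, C.Adj z s)
      ≤ ∑ _x : R, (1 - (1 / 2 : ℝ) ^ (k + 1)) ^ (Fintype.card R - (k + 1)) *
        (Nat.card (SimpleGraph R) : ℝ) := Finset.sum_le_sum fun u _ => h u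
    _ = _ := by
        rw [Finset.sum_const, Finset.card_univ, nsmul_eq_mul]
        ring

theorem cnt_C2 {R : Type*} [Fintype R] (S Q : Finset R) (k : ℕ) (hS : S.card ≤ k) :
    cnt (fun C : SimpleGraph R => ∀ z ∈ Q, z ∈ S ∨ ∃ s ∈ S, C.Adj z s) ≤
      (1 - (1 / 2 : ℝ) ^ k) ^ (Q.card - k) * (Nat.card (SimpleGraph R) : ℝ) := by
  classical
  have hd : Disjoint S (Q \ S) := Finset.disjoint_sdiff
  have h1 := cnt_avoid S (Q \ S) hd (fun _ _ => False)
  have h2 : cnt (fun C : SimpleGraph R => ∀ z ∈ Q, z ∈ S ∨ ∃ s ∈ S, C.Adj z s) ≤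
      cnt (fun C : SimpleGraph R => ∀ z ∈ Q \ S, ∃ x ∈ S, ¬ (C.Adj z x ↔ False)) := by
    refine cnt_mono fun C hC z hz => ?_
    rw [Finset.mem_sdiff] at hz
    rcases hC z hz.1 with h | ⟨s, hs, hzs⟩
    · exact absurd h hz.2
    · exact ⟨s, hs, fun hiff => hiff.1 hzs⟩
  refine h2.trans ?_
  rw [h1]
  refine mul_le_mul_of_nonneg_right ?_ (Nat.cast_nonneg _)
  obtain ⟨b1, b2, b3⟩ := Bcd_base hS
  have h3 : Q.card - k ≤ (Q \ S).card := by
    have := Finset.le_card_sdiff S Q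
    omega
  calc (1 - (1 / 2 : ℝ) ^ S.card) ^ (Q \ S).card
      ≤ (1 - (1 / 2 : ℝ) ^ k) ^ (Q \ S).card := pow_le_pow_left₀ b1 b2 _
    _ ≤ (1 - (1 / 2 : ℝ) ^ k) ^ (Q.card - k) := pow_le_pow_of_le_one (b1.trans b2) b3 h3

end

end Pool.Agent.helper37.VN
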