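import Mathlib

set_option autoImplicit false

/-!
# Counting in finite types: `cnt P` is the number of elements with property `P`, as a real number
-/

namespace Pool.Agent.helper37.VN

open scoped Classical

noncomputable section

/-- The number of elements of `α` with property `P`. -/
def cnt {α : Type*} (P : α → Prop) : ℝ := (Nat.card {a // P a} : ℝ)

theorem cnt_nonneg {α : Type*} (P : α → Prop) : 0 ≤ cnt P := Nat.cast_nonneg _

theorem cnt_eq_sum {α : Type*} [Fintype α] (P : α → Prop) : cnt P = ∑ a, (if P a then (1 : ℝ) else 0) := by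
  unfold cnt
  rw [Nat.card_eq_fintype_card, Fintype.card_subtype, Finset.sum_boole]

theorem cnt_true (α : Type*) : cnt (fun _ : α => True) = (Nat.card α : ℝ) := by
  unfold cnt
  rw [Nat.card_congr (Equiv.subtypeUnivEquiv (fun _ => trivial))]

theorem cnt_mono {α : Type*} [Finite α] {P Q : α → Prop} (h : ∀ a, P a → Q a) : cnt P ≤ cnt Q := by
  have := Fintype.ofFinite α
  rw [cnt_eq_sum, cnt_eq_sum]
  apply Finset.sum_le_sum
  intro a _
  by_cases hp : P a
  · simp [hp, h a hp]
  · by_cases hq : Q a <;> simp [hp, hq]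

theorem cnt_congr {α : Type*} {P Q : α → Prop} (h : ∀ a, P a ↔ Q a) : cnt P = cnt Q := by
  have : P = Q := funext fun a => propext (h a)
  rw [this]

theorem cnt_or_le {α : Type*} [Finite α] (P Q : α → Prop) : cnt (fun a => P a ∨ Q a) ≤ cnt P + cnt Q := by
  have := Fintype.ofFinite α
  rw [cnt_eq_sum, cnt_eq_sum, cnt_eq_sum, ← Finset.sum_add_distrib]
  apply Finset.sum_le_sum
  intro a _
  by_cases hp : P a <;> by_cases hq : Q a <;> simp [hp, hq]

theorem cnt_exists_le {α ι : Type*} [Finite α] [Fintype ι] (P : ι → α → Prop) :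
    cnt (fun a => ∃ i, P i a) ≤ ∑ i, cnt (P i) := by
  have := Fintype.ofFinite α
  rw [cnt_eq_sum]
  simp only [cnt_eq_sum]
  rw [Finset.sum_comm]
  apply Finset.sum_le_sum
  intro a _
  by_cases h : ∃ i, P i a
  · obtain ⟨i, hi⟩ := h
    have h1 : (if P i a then (1 : ℝ) else 0) ≤ ∑ j, (if P j a then (1 : ℝ) else 0) :=
      Finset.single_le_sum (f := fun j => if P j a then (1 : ℝ) else 0)
        (fun j _ => by by_cases hj : P j a <;> simp [hj]) (Finset.mem_univ i)
    rw [if_pos hi] at h1
    refine le_trans ?_ h1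
    split_ifs <;> norm_num
  · rw [if_neg h]
    exact Finset.sum_nonneg fun j _ => by by_cases hj : P j a <;> simp [hj]

theorem cnt_equiv {α β : Type*} (e : α ≃ β) (P : β → Prop) : cnt (fun a => P (e a)) = cnt P := by
  unfold cnt
  rw [Nat.card_congr (e.subtypeEquiv (p := fun a => P (e a)) (q := P) (fun a => Iff.rfl))]

theorem cnt_not {α : Type*} [Finite α] (P : α → Prop) : cnt (fun a => ¬ P a) = (Nat.card α : ℝ) - cnt P := by
  have := Fintype.ofFinite α
  rw [cnt_eq_sum, cnt_eq_sum, Nat.card_eq_fintype_card, eq_sub_iff_add_eq, ← Finset.sum_add_distrib]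
  rw [Finset.sum_congr rfl (g := fun _ => (1 : ℝ)) (fun a _ => by by_cases h : P a <;> simp [h])]
  simp

theorem cnt_le_card {α : Type*} [Finite α] (P : α → Prop) : cnt P ≤ (Nat.card α : ℝ) := by
  rw [← cnt_true α]
  exact cnt_mono fun _ _ => trivial

theorem cnt_prod {α β : Type*} [Fintype α] [Finite β] (P : α → β → Prop) :
    cnt (fun t : α × β => P t.1 t.2) = ∑ a, cnt (P a) := by
  have := Fintype.ofFinite β
  rw [cnt_eq_sum, Fintype.sum_prod_type]
  exact Finset.sum_congr rfl fun a _ => by rw [cnt_eq_sum]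

theorem cnt_pi {ι β : Type*} [Fintype ι] [Finite β] (φ : ι → β → Prop) :
    cnt (fun f : ι → β => ∀ i, φ i (f i)) = ∏ i, cnt (φ i) := by
  have := Fintype.ofFinite β
  unfold cnt
  rw [← Nat.cast_prod, Nat.card_eq_fintype_card]
  have h : Fintype.card {f : ι → β // ∀ i, φ i (f i)} = ∏ i, Nat.card {b // φ i b} := by
    rw [Fintype.card_congr (Equiv.subtypePiEquivPi (p := fun i b => φ i b))]
    rw [Fintype.card_pi]
    exact Finset.prod_congr rfl fun i _ => by rw [Nat.card_eq_fintype_card]
  exact_mod_cast h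

end

end Pool.Agent.helper37.VN
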