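import Pool.Agent.helper37.VN.Def

set_option autoImplicit false

/-!
# VN-01: the coefficient functionals of `S/I` for the closed neighbourhood ideal

For a vertex set `T` containing no closed neighbourhood the coefficient of the squarefree monomial `x_T` is a well
defined functional on `S/I`.

Proof. (1) If `p ∈ I = ngIdeal K G` then `coeff (ind T) p = 0`: by `Submodule.span_induction` (or `Ideal.span`
induction) it is enough for `p = q * ∏_{u ∈ cn G v} X u`; the product is the monomial with exponent `ind (cn G v)`, and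
`coeff_mul_monomial'`: the coefficient of `x_T` is zero since `ind (cn G v) ≤ ind T` fails (`¬ cn G v ⊆ T`).
(2) So the additive map `coeff (ind T)` factors through the quotient (`QuotientAddGroup.lift` or `Ideal.Quotient` /
`Submodule.liftQ`). (3) Second statement: write `y = mk p`; `coeff (ind T) (X v * p)` is `coeff (ind (T.erase v)) p` if
`v ∈ T` and zero otherwise (`MvPolynomial.coeff_X_mul'`).
-/

namespace Pool.Agent.helper37.VN

open MvPolynomial Finset
open scoped Classical

noncomputable section

/-- The exponent of the squarefree monomial `x_T`. -/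
def ind {V : Type*} (T : Finset V) : V →₀ ℕ := ∑ v ∈ T, Finsupp.single v 1

private theorem Coe_ind_apply {V : Type*} (T : Finset V) (v : V) :
    ind T v = if v ∈ T then 1 else 0 := by
  unfold ind
  rw [Finsupp.finsetSum_apply]
  simp only [Finsupp.single_apply]
  rw [Finset.sum_ite_eq']

private theorem Coe_le {V : Type*} {S T : Finset V} (h : ind S ≤ ind T) : S ⊆ T := by
  intro v hv
  by_contra hT
  have h1 := h v
  rw [Coe_ind_apply, Coe_ind_apply, if_pos hv, if_neg hT] at h1
  omega

private theorem Coe_prod {V : Type*} (K : Type*) [Field K] (S : Finset V) :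
    ∏ u ∈ S, (X u : MvPolynomial V K) = monomial (ind S) 1 := by
  unfold ind
  rw [monomial_sum_one]
  rfl

private theorem Coe_zero {V : Type*} [Fintype V] (K : Type*) [Field K] (G : SimpleGraph V)
    {T : Finset V} (hT : ∀ v, ¬ cn G v ⊆ T) {p : MvPolynomial V K} (hp : p ∈ ngIdeal K G) :
    coeff (ind T) p = 0 := by
  have key : ∀ q : MvPolynomial V K, coeff (ind T) (q * p) = 0 := by
    unfold ngIdeal at hp
    induction hp using Submodule.span_induction with
    | mem x hx =>
      obtain ⟨v, rfl⟩ := hx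
      intro q
      change coeff (ind T) (q * ∏ u ∈ cn G v, X u) = 0
      rw [Coe_prod, coeff_mul_monomial', if_neg]
      intro h
      exact hT v (Coe_le h)
    | zero =>
      intro q
      rw [mul_zero, coeff_zero]
    | add x y _ _ hx hy =>
      intro q
      rw [mul_add, coeff_add, hx, hy, add_zero]
    | smul a x _ hx =>
      intro q
      rw [smul_eq_mul, ← mul_assoc]
      exact hx _
  have h1 := key 1
  rwa [one_mul] at h1

private theorem Coe_exists {V : Type*} [Fintype V] (K : Type*) [Field K] (G : SimpleGraph V)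
    {T : Finset V} (hT : ∀ v, ¬ cn G v ⊆ T) :
    ∃ c : (MvPolynomial V K ⧸ ngIdeal K G) →+ K, ∀ p : MvPolynomial V K,
      c (Ideal.Quotient.mk (ngIdeal K G) p) = coeff (ind T) p := by
  have hs : ∀ y : MvPolynomial V K ⧸ ngIdeal K G, ∃ p, Ideal.Quotient.mk (ngIdeal K G) p = y :=
    fun y => Ideal.Quotient.mk_surjective y
  choose rep hrep using hs
  have h1 : ∀ p q : MvPolynomial V K,
      Ideal.Quotient.mk (ngIdeal K G) p = Ideal.Quotient.mk (ngIdeal K G) q →
      coeff (ind T) p = coeff (ind T) q := by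
    intro p q hpq
    have h2 := Coe_zero K G hT (Ideal.Quotient.eq.1 hpq)
    rw [coeff_sub] at h2
    exact sub_eq_zero.1 h2
  refine ⟨AddMonoidHom.mk' (fun y => coeff (ind T) (rep y)) ?_, ?_⟩
  · intro y z
    change coeff (ind T) (rep (y + z)) = coeff (ind T) (rep y) + coeff (ind T) (rep z)
    rw [← coeff_add]
    apply h1
    rw [hrep, map_add, hrep, hrep]
  · intro p
    change coeff (ind T) (rep (Ideal.Quotient.mk (ngIdeal K G) p)) = coeff (ind T) p
    apply h1
    rw [hrep]

theorem exists_cf {V : Type*} [Fintype V] (K : Type*) [Field K] (G : SimpleGraph V) :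
    ∃ cf : Finset V → (MvPolynomial V K ⧸ ngIdeal K G) →+ K,
      (∀ T, (∀ v, ¬ cn G v ⊆ T) → ∀ p : MvPolynomial V K,
        cf T (Ideal.Quotient.mk (ngIdeal K G) p) = coeff (ind T) p) ∧
      (∀ T, (∀ v, ¬ cn G v ⊆ T) → ∀ (v : V) (y : MvPolynomial V K ⧸ ngIdeal K G),
        cf T (Ideal.Quotient.mk (ngIdeal K G) (X v) * y) = if v ∈ T then cf (T.erase v) y else 0) := by
  have h0 : ∀ T : Finset V, ∃ c : (MvPolynomial V K ⧸ ngIdeal K G) →+ K,
      (∀ v, ¬ cn G v ⊆ T) → ∀ p : MvPolynomial V K,
        c (Ideal.Quotient.mk (ngIdeal K G) p) = coeff (ind T) p := by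
    intro T
    by_cases hT : ∀ v, ¬ cn G v ⊆ T
    · obtain ⟨c, hc⟩ := Coe_exists K G hT
      exact ⟨c, fun _ => hc⟩
    · exact ⟨0, fun h => absurd h hT⟩
  choose cf hcf using h0
  refine ⟨cf, hcf, ?_⟩
  intro T hT v y
  obtain ⟨p, rfl⟩ := Ideal.Quotient.mk_surjective y
  rw [← map_mul, hcf T hT, coeff_X_mul']
  have hsup : v ∈ (ind T).support ↔ v ∈ T := by
    rw [Finsupp.mem_support_iff, Coe_ind_apply]
    by_cases hv : v ∈ T <;> simp [hv]
  by_cases hv : v ∈ T
  · rw [if_pos (hsup.2 hv), if_pos hv, hcf (T.erase v) (fun w hw => hT w (hw.trans (Finset.erase_subset _ _)))]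
    congr 1
    ext w
    rw [Finsupp.tsub_apply, Coe_ind_apply, Coe_ind_apply, Finsupp.single_apply]
    by_cases hw : w = v
    · subst hw
      simp [hv]
    · have hw' : v ≠ w := fun h => hw h.symm
      simp [hw, hw']
  · rw [if_neg (fun h => hv (hsup.1 h)), if_neg hv]

end

end Pool.Agent.helper37.VN
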