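import Mathlib

set_option autoImplicit false

/-!
# Closed neighbourhood ideals: definitions

`ngIdeal K G` is the closed neighbourhood ideal of `G` in `K[x_v : v a vertex]`, `vNumber I` is the v-number of an
ideal, `reg I` is the Castelnuovo-Mumford regularity of `S/I`, read off the Koszul homology `H_i(x; S/I) = Tor_i(S/I, K)`:
the largest `e` with `H_i(x; S/I)` nonzero in degree `i + e` for some `i`.
-/

namespace Pool.Agent.helper37.VN

open MvPolynomial Finset
open scoped Classical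

noncomputable section

/-- The closed neighbourhood `N[v]`. -/
def cn {V : Type*} [Fintype V] (G : SimpleGraph V) (v : V) : Finset V :=
  Finset.univ.filter (fun u => u = v ∨ G.Adj v u)

/-- The closed neighbourhood ideal `𝒩_G`. -/
def ngIdeal (K : Type*) [Field K] {V : Type*} [Fintype V] (G : SimpleGraph V) : Ideal (MvPolynomial V K) :=
  Ideal.span (Set.range (fun v => ∏ u ∈ cn G v, (X u : MvPolynomial V K)))

/-- The v-number: the least `d` such that `(I : f)` is an associated prime of `S/I` for some form `f` of degree `d`. -/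
def vNumber {K : Type*} [Field K] {V : Type*} (I : Ideal (MvPolynomial V K)) : ℕ∞ :=
  ⨅ d : {d : ℕ // ∃ f : MvPolynomial V K, f.IsHomogeneous d ∧
    ∃ P ∈ associatedPrimes (MvPolynomial V K) (MvPolynomial V K ⧸ I), ∀ g, g ∈ P ↔ g * f ∈ I}, (d.1 : ℕ∞)

/-- The chains of the Koszul complex: alternating families indexed by `i`-tuples of variables. -/
def IsAlt {V M : Type*} [AddCommGroup M] {i : ℕ} (z : (Fin i → V) → M) : Prop :=
  (∀ a, ¬ Function.Injective a → z a = 0) ∧
    ∀ (a : Fin i → V) (σ : Equiv.Perm (Fin i)), z (a ∘ σ) = ((Equiv.Perm.sign σ : ℤˣ) : ℤ) • z a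

/-- The differential of the Koszul complex of `S/I` with respect to all variables. -/
def koszulD {K : Type*} [Field K] {V : Type*} [Fintype V] (I : Ideal (MvPolynomial V K)) {i : ℕ}
    (w : (Fin (i + 1) → V) → MvPolynomial V K ⧸ I) (a : Fin i → V) : MvPolynomial V K ⧸ I :=
  ∑ v, Ideal.Quotient.mk I (X v) * w (Fin.cons v a)

/-- The cycles of the Koszul complex of `S/I`. -/
def IsCycle {K : Type*} [Field K] {V : Type*} [Fintype V] (I : Ideal (MvPolynomial V K)) :
    ∀ {i : ℕ}, ((Fin i → V) → MvPolynomial V K ⧸ I) → Prop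
  | 0, _ => True
  | _ + 1, z => ∀ a, koszulD I z a = 0

/-- `H_i(x; S/I)` (that is `Tor_i(S/I, K)`) is not zero in degree `i + e`. -/
def TorNeZero {K : Type*} [Field K] {V : Type*} [Fintype V] (I : Ideal (MvPolynomial V K)) (i e : ℕ) : Prop :=
  ∃ z : (Fin i → V) → MvPolynomial V K ⧸ I, IsAlt z ∧
    (∀ a, ∃ p : MvPolynomial V K, p.IsHomogeneous e ∧ Ideal.Quotient.mk I p = z a) ∧ IsCycle I z ∧
    ¬ ∃ w : (Fin (i + 1) → V) → MvPolynomial V K ⧸ I, IsAlt w ∧ ∀ a, z a = koszulD I w a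

/-- The Castelnuovo-Mumford regularity of `S/I`. -/
def reg {K : Type*} [Field K] {V : Type*} [Fintype V] (I : Ideal (MvPolynomial V K)) : ℕ∞ :=
  ⨆ e : {e : ℕ // ∃ i, TorNeZero I i e}, (e.1 : ℕ∞)

/-- The criterion: `D` dominates `G`, `D ⊆ W`, `c` retracts `W` onto `D`, each `d ∈ D` is the only element of `D` in
some closed neighbourhood contained in `W`, and each closed neighbourhood contained in `W` contains a fibre of `c`. -/
def HasP {V : Type*} [Fintype V] (G : SimpleGraph V) (D W : Finset V) (c : V → V) : Prop :=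
  D ⊆ W ∧ (∀ v, ∃ d ∈ D, d ∈ cn G v) ∧ (∀ u ∈ W, c u ∈ D) ∧ (∀ d ∈ D, c d = d) ∧
  (∀ d ∈ D, ∃ v, cn G v ⊆ W ∧ ∀ d' ∈ D, d' ∈ cn G v ↔ d' = d) ∧
  (∀ v, cn G v ⊆ W → ∃ d ∈ D, ∀ u ∈ W, c u = d → u ∈ cn G v)

/-- A simpler sufficient structure: a dominating set `D` with private neighbours `s d`, such that every vertex not of
the form `s d` has in its closed neighbourhood a vertex outside of all the `N[s d]`. -/
def HasF {V : Type*} [Fintype V] (G : SimpleGraph V) : Prop :=
  ∃ (D : Finset V) (s : V → V),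
    (∀ v, ∃ d ∈ D, d ∈ cn G v) ∧
    (∀ d ∈ D, ∀ d' ∈ D, d' ∈ cn G (s d) ↔ d' = d) ∧
    (∀ v, (∀ d ∈ D, v ≠ s d) → ∃ z ∈ cn G v, ∀ d ∈ D, z ∉ cn G (s d))

end

end Pool.Agent.helper37.VN
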