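import Pool.Agent.helper37.VN.Cri

set_option autoImplicit false

/-!
# The criterion from exact domination

`D` dominates `G`, `D ⊆ W`, every `d ∈ D` is in a closed neighbourhood contained in `W`, and every closed neighbourhood
contained in `W` meets `D` in exactly one vertex. Then the criterion `HasP` holds for a subset of `W`.
-/

namespace Pool.Agent.helper37.VN

open Finset
open scoped Classical

noncomputable section

theorem hasP_of_exact {V : Type*} [Fintype V] (G : SimpleGraph V) (D W : Finset V)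
    (hdom : ∀ v, ∃ d ∈ D, d ∈ cn G v)
    (h1 : ∀ d ∈ D, ∃ v, cn G v ⊆ W ∧ d ∈ cn G v)
    (h2 : ∀ v, cn G v ⊆ W → ∀ d ∈ D, ∀ d' ∈ D, d ∈ cn G v → d' ∈ cn G v → d = d') :
    ∃ W' c, HasP G D W' c := by
  -- the possible choices
  let Ch : Set (V → V) := {s | ∀ d ∈ D, cn G (s d) ⊆ W ∧ d ∈ cn G (s d)}
  have hne : Ch.Nonempty := by
    choose! s hs using h1
    exact ⟨s, fun d hd => hs d hd⟩
  let un : (V → V) → Finset V := fun s => D.biUnion (fun d => cn G (s d))
  obtain ⟨s, hs, hmin⟩ : ∃ s ∈ Ch, ∀ s' ∈ Ch, (un s).card ≤ (un s').card := by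
    obtain ⟨s, hs, h⟩ := Set.exists_min_image Ch (fun s => (un s).card) (Set.toFinite _) hne
    exact ⟨s, hs, h⟩
  have hW' : un s ⊆ W := by
    intro x hx
    obtain ⟨d, hd, hx⟩ := Finset.mem_biUnion.mp hx
    exact (hs d hd).1 hx
  have key : ∀ x ∈ un s, ∃ d ∈ D, ∀ v, cn G v ⊆ un s → d ∈ cn G v → x ∈ cn G v := by
    intro x hx
    by_contra hcon
    push Not at hcon
    choose! s' hs' using hcon
    have hs'C : s' ∈ Ch := fun d hd => ⟨(hs' d hd).1.trans hW', (hs' d hd).2.1⟩
    have hsub : un s' ⊆ (un s).erase x := by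
      intro y hy
      obtain ⟨d, hd, hy⟩ := Finset.mem_biUnion.mp hy
      refine Finset.mem_erase.mpr ⟨?_, (hs' d hd).1 hy⟩
      rintro rfl
      exact (hs' d hd).2.2 hy
    have hlt : (un s').card < (un s).card :=
      lt_of_le_of_lt (Finset.card_le_card hsub) (Finset.card_erase_lt_of_mem hx)
    exact absurd (hmin s' hs'C) (not_le.mpr hlt)
  choose! c hcD hc using key
  refine ⟨un s, fun u => if u ∈ D then u else c u, ?_, hdom, ?_, ?_, ?_, ?_⟩
  · intro d hd
    exact Finset.mem_biUnion.mpr ⟨d, hd, (hs d hd).2⟩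
  · intro u hu
    by_cases h : u ∈ D
    · simpa [h] using h
    · simpa [h] using hcD u hu
  · intro d hd
    simp [hd]
  · intro d hd
    refine ⟨s d, fun x hx => Finset.mem_biUnion.mpr ⟨d, hd, hx⟩, fun d' hd' => ⟨fun h => ?_, ?_⟩⟩
    · exact h2 (s d) (hs d hd).1 d' hd' d hd h (hs d hd).2
    · rintro rfl
      exact (hs d' hd).2
  · intro v hv
    obtain ⟨d, hd, hdv⟩ := hdom v
    refine ⟨d, hd, fun u hu hcu => ?_⟩
    by_cases h : u ∈ D
    · simp only [h, if_true] at hcu
      rw [hcu]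
      exact hdv
    · simp only [h, if_false] at hcu
      exact hc u hu v hv (hcu ▸ hdv)

end

end Pool.Agent.helper37.VN
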