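import Pool.Agent.helper37.VN.Coe

set_option autoImplicit false

/-!
# VN-02: the lower bound for the regularity

Let `F = W \ D`, `k = |D|`, `x_F = ∏_{u ∈ F} X u`, `I = ngIdeal K G`. Claim: `TorNeZero I k |F|`, hence `|F| ≤ reg I`
(`le_iSup` over the subtype).

Proof. Enumerate `D` by an injective `d : Fin k → V` with range `D`. The chain is
`z a = (sign σ) • mk x_F` if `a = d ∘ σ` for a (unique) permutation `σ` of `Fin k`, and `z a = 0` if there is no such
`σ`. It is alternating and its values are classes of forms of degree `|F|` (the zero polynomial is homogeneous of any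
degree). If `k = 0` every chain is a cycle by definition. If `k = j + 1`: for every `a : Fin j → V` each term
`mk (X v) * z (Fin.cons v a)` is zero: if `z (Fin.cons v a) ≠ 0` then `v` is in the range of `d`, so `v ∈ D`, and by
`HasP` there is `u` with `cn G u ⊆ W` and `D ∩ cn G u = {v}`, so `cn G u ⊆ F ∪ {v}` and `X v * x_F` is a multiple of the
generator `∏_{t ∈ cn G u} X t`.
(This works for every `v ∈ D`; note `v ∉ F`.)

The chain is not a boundary. Let `𝒯` be the set of `a : Fin k → V` with `a j ∈ W` and `c (a j) = d j` for all `j`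
(so `a` is injective, because `d` is). For `a ∈ 𝒯` put `μ a = W \ range a`. No closed neighbourhood is contained in
`μ a`: if `cn G v ⊆ μ a ⊆ W` then by `HasP` there is `e ∈ D`, `e = d j`, with `u ∈ cn G v` for all `u ∈ W` with
`c u = e`; in particular `a j ∈ cn G v ⊆ μ a`, a contradiction. The same for subsets of `μ a`.
For a chain `y` put `Λ y = ∑_{a ∈ 𝒯} cf (μ a) (y a)` with the functionals `cf` of VN-01.
* `Λ z = 1`: if `a ∈ 𝒯` and `a = d ∘ σ` then `c (a j) = d j` and `c (d (σ j)) = d (σ j)` (as `d (σ j) ∈ D`), so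
  `σ = 1` and `a = d`; and `d ∈ 𝒯`, `μ d = W \ D = F`, `cf F (mk x_F) = coeff (ind F) (x_F) = 1`.
* `Λ (koszulD I w) = 0` for an alternating `w`: by the second property of `cf`,
  `Λ (koszulD I w) = ∑_{a ∈ 𝒯} ∑_{v ∈ μ a} cf ((μ a).erase v) (w (Fin.cons v a))`. On the pairs `(a, v)`, `a ∈ 𝒯`,
  `v ∈ μ a`, there is a fixed point free involution: `c v ∈ D`, so `c v = d j` for a unique `j`; put
  `a' = Function.update a j v`, `v' = a j`. Then `a' ∈ 𝒯`, `v' ∈ μ a'` (`v' ≠ v` as `v ∉ range a`, and `v' ≠ a l` for
  `l ≠ j`), `(μ a').erase v' = (μ a).erase v` (both are `W` minus `range a ∪ {v}`), and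
  `Fin.cons v' a' = (Fin.cons v a) ∘ swap 0 (j.succ)`, so `w (Fin.cons v' a') = - w (Fin.cons v a)`. So the terms of
  the pairs cancel (`Finset.sum_involution`; the fixed point condition holds since `v' ≠ v`).
So `z = koszulD I w` is impossible (`1 = 0` in `K`).
-/

namespace Pool.Agent.helper37.VN

open MvPolynomial Finset
open scoped Classical

noncomputable section

/-- The Koszul chain `x_F e_D`. -/
private def zc {V : Type*} [Fintype V] {K : Type*} [Field K] (I : Ideal (MvPolynomial V K)) (F : Finset V) {n : ℕ}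
    (d : Fin n → V) (a : Fin n → V) : MvPolynomial V K ⧸ I :=
  ∑ σ : Equiv.Perm (Fin n), if a = d ∘ σ then
    ((Equiv.Perm.sign σ : ℤˣ) : ℤ) • Ideal.Quotient.mk I (∏ u ∈ F, (X u : MvPolynomial V K)) else 0

private theorem zc_alt {V : Type*} [Fintype V] {K : Type*} [Field K] (I : Ideal (MvPolynomial V K)) (F : Finset V)
    {n : ℕ} (d : Fin n → V) (hd : Function.Injective d) : IsAlt (zc I F d) := by
  constructor
  · intro a ha
    unfold zc
    apply Finset.sum_eq_zero
    intro σ _
    rw [if_neg]
    intro h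
    exact ha (by rw [h]; exact hd.comp σ.injective)
  · intro a τ
    unfold zc
    rw [← Equiv.sum_comp (Equiv.mulRight τ), Finset.smul_sum]
    apply Finset.sum_congr rfl
    intro σ _
    have hiff : (a ∘ τ = d ∘ ((Equiv.mulRight τ) σ : Equiv.Perm (Fin n))) ↔ a = d ∘ σ := by
      constructor
      · intro h
        funext x
        have := congrFun h (τ.symm x)
        simpa using this
      · intro h
        funext x
        rw [h]
        simp
    by_cases h : a = d ∘ σ
    · rw [if_pos h, if_pos (hiff.2 h), smul_smul]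
      congr 1
      simp [mul_comm]
    · rw [if_neg h, if_neg (fun h' => h (hiff.1 h')), smul_zero]

private theorem zc_hom {V : Type*} [Fintype V] {K : Type*} [Field K] (I : Ideal (MvPolynomial V K)) (F : Finset V)
    {n : ℕ} (d : Fin n → V) (a : Fin n → V) :
    ∃ p : MvPolynomial V K, p.IsHomogeneous F.card ∧ Ideal.Quotient.mk I p = zc I F d a := by
  refine ⟨∑ σ : Equiv.Perm (Fin n), if a = d ∘ σ then
    ((Equiv.Perm.sign σ : ℤˣ) : ℤ) • (∏ u ∈ F, (X u : MvPolynomial V K)) else 0, ?_, ?_⟩
  · apply MvPolynomial.IsHomogeneous.sum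
    intro σ _
    split_ifs
    · have h1 : (∏ u ∈ F, (X u : MvPolynomial V K)).IsHomogeneous F.card := by
        have := MvPolynomial.IsHomogeneous.prod F (fun u => (X u : MvPolynomial V K)) (fun _ => 1)
          (fun u _ => MvPolynomial.isHomogeneous_X K u)
        simpa using this
      have h2 : (∏ u ∈ F, (X u : MvPolynomial V K)) ∈ homogeneousSubmodule V K F.card := h1
      exact zsmul_mem h2 _
    · exact MvPolynomial.isHomogeneous_zero _ _ _
  · unfold zc
    rw [map_sum]
    apply Finset.sum_congr rfl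
    intro σ _
    split_ifs
    · rw [map_zsmul]
    · rw [map_zero]

private theorem X_mul_F {V : Type*} [Fintype V] (K : Type*) [Field K] (G : SimpleGraph V) (D W : Finset V) (c : V → V)
    (h : HasP G D W c) (v : V) (hv : v ∈ D) :
    Ideal.Quotient.mk (ngIdeal K G) (X v) *
      Ideal.Quotient.mk (ngIdeal K G) (∏ u ∈ W \ D, (X u : MvPolynomial V K)) = 0 := by
  obtain ⟨hDW, hdom, hcD, hcd, hpriv, hfib⟩ := h
  obtain ⟨u, hu, hu'⟩ := hpriv v hv
  rw [← map_mul, Ideal.Quotient.eq_zero_iff_mem]
  have hvF : v ∉ W \ D := fun hx => (Finset.mem_sdiff.1 hx).2 hv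
  rw [← Finset.prod_insert hvF]
  have hsub : cn G u ⊆ insert v (W \ D) := by
    intro x hx
    rw [Finset.mem_insert, Finset.mem_sdiff]
    by_cases hxD : x ∈ D
    · left
      exact (hu' x hxD).1 hx
    · right
      exact ⟨hu hx, hxD⟩
  refine Ideal.mem_of_dvd _ (Finset.prod_dvd_prod_of_subset _ _ _ hsub) ?_
  exact Ideal.subset_span ⟨u, rfl⟩

private theorem zc_cycle {V : Type*} [Fintype V] (K : Type*) [Field K] (G : SimpleGraph V) (D W : Finset V) (c : V → V)
    (h : HasP G D W c) : ∀ {n : ℕ} (d : Fin n → V) (_ : ∀ j, d j ∈ D),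
      IsCycle (ngIdeal K G) (zc (ngIdeal K G) (W \ D) d)
  | 0, _, _ => trivial
  | n + 1, d, hd => by
    intro a
    unfold koszulD
    apply Finset.sum_eq_zero
    intro v _
    unfold zc
    rw [Finset.mul_sum]
    apply Finset.sum_eq_zero
    intro σ _
    split_ifs with hσ
    · have hv : v ∈ D := by
        have := congrFun hσ 0
        simp only [Fin.cons_zero, Function.comp] at this
        rw [this]
        exact hd _
      rw [mul_smul_comm, X_mul_F K G D W c h v hv, smul_zero]
    · rw [mul_zero]

private theorem prod_X_eq {V : Type*} [Fintype V] (K : Type*) [Field K] (F : Finset V) :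
    (∏ u ∈ F, (X u : MvPolynomial V K)) = monomial (ind F) 1 := by
  unfold ind
  rw [MvPolynomial.monomial_sum_one]
  rfl

private theorem not_boundary {V : Type*} [Fintype V] (K : Type*) [Field K] (G : SimpleGraph V) (D W : Finset V)
    (c : V → V) (h : HasP G D W c) {n : ℕ} (d : Fin n → V) (hdi : Function.Injective d)
    (hdD : ∀ j, d j ∈ D) (hDd : ∀ x ∈ D, ∃ j, d j = x) :
    ¬ ∃ w : (Fin (n + 1) → V) → MvPolynomial V K ⧸ (ngIdeal K G), IsAlt w ∧
      ∀ a, zc (ngIdeal K G) (W \ D) d a = koszulD (ngIdeal K G) w a := by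
  rintro ⟨w, hw, hzw⟩
  obtain ⟨hDW, hdom, hcD, hcd, hpriv, hfib⟩ := h
  obtain ⟨cf, hcf1, hcf2⟩ := exists_cf K G
  set T : Finset (Fin n → V) := Finset.univ.filter (fun a => ∀ j, a j ∈ W ∧ c (a j) = d j) with hT
  let μ : (Fin n → V) → Finset V := fun a => W.filter (fun x => ∀ j, a j ≠ x)
  have hTm : ∀ a, a ∈ T ↔ ∀ j, a j ∈ W ∧ c (a j) = d j := by
    intro a
    simp [hT]
  have hμm : ∀ a x, x ∈ μ a ↔ x ∈ W ∧ ∀ j, a j ≠ x := by
    intro a x
    simp [μ]
  have hμ : ∀ a ∈ T, ∀ v, ¬ cn G v ⊆ μ a := by
    intro a ha v hv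
    have hvW : cn G v ⊆ W := fun x hx => ((hμm a x).1 (hv hx)).1
    obtain ⟨e, heD, he⟩ := hfib v hvW
    obtain ⟨j, rfl⟩ := hDd e heD
    have h1 := (hTm a).1 ha j
    have h2 := hv (he (a j) h1.1 h1.2)
    exact ((hμm a _).1 h2).2 j rfl
  -- first evaluation
  have hL1 : ∑ a ∈ T, cf (μ a) (zc (ngIdeal K G) (W \ D) d a) = 1 := by
    have hdT : d ∈ T := (hTm d).2 fun j => ⟨hDW (hdD j), hcd _ (hdD j)⟩
    have hone : ∀ a ∈ T, ∀ σ : Equiv.Perm (Fin n), a = d ∘ σ → σ = 1 := by
      intro a ha σ hσ
      ext j
      have h1 := ((hTm a).1 ha j).2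
      rw [hσ] at h1
      simp only [Function.comp] at h1
      rw [hcd _ (hdD _)] at h1
      rw [hdi h1]
      rfl
    rw [Finset.sum_eq_single_of_mem d hdT]
    · have hz : zc (ngIdeal K G) (W \ D) d d =
          Ideal.Quotient.mk (ngIdeal K G) (∏ u ∈ W \ D, (X u : MvPolynomial V K)) := by
        unfold zc
        rw [Finset.sum_eq_single_of_mem (1 : Equiv.Perm (Fin n)) (Finset.mem_univ _)]
        · rw [if_pos (by simp)]
          simp
        · intro σ _ hσ
          rw [if_neg]
          intro h'
          exact hσ (hone d hdT σ h')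
      rw [hz, hcf1 _ (hμ d hdT)]
      have hmu : μ d = W \ D := by
        ext x
        rw [hμm, Finset.mem_sdiff]
        constructor
        · rintro ⟨h1, h2⟩
          refine ⟨h1, fun h3 => ?_⟩
          obtain ⟨j, hj⟩ := hDd x h3
          exact h2 j hj
        · rintro ⟨h1, h2⟩
          refine ⟨h1, fun j hj => h2 ?_⟩
          rw [← hj]
          exact hdD j
      rw [hmu, prod_X_eq, coeff_monomial, if_pos rfl]
    · intro a ha had
      have hz : zc (ngIdeal K G) (W \ D) d a = 0 := by
        unfold zc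
        apply Finset.sum_eq_zero
        intro σ _
        rw [if_neg]
        intro h'
        have := hone a ha σ h'
        rw [this] at h'
        exact had (by simpa using h')
      rw [hz, map_zero]
  -- second evaluation
  have hL2 : ∑ a ∈ T, cf (μ a) (koszulD (ngIdeal K G) w a) = 0 := by
    have h1 : ∀ a ∈ T, cf (μ a) (koszulD (ngIdeal K G) w a) =
        ∑ v, if v ∈ μ a then cf ((μ a).erase v) (w (Fin.cons v a)) else 0 := by
      intro a ha
      unfold koszulD
      rw [map_sum]
      exact Finset.sum_congr rfl fun v _ => hcf2 _ (hμ a ha) v _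
    rw [Finset.sum_congr rfl h1, ← Finset.sum_product', ← Finset.sum_filter]
    have hJ : ∀ p : (Fin n → V) × V, p ∈ (T ×ˢ (Finset.univ : Finset V)).filter (fun p => p.2 ∈ μ p.1) →
        ∃ j, d j = c p.2 := by
      intro p hp
      have h2 := (Finset.mem_filter.1 hp).2
      exact hDd _ (hcD _ ((hμm _ _).1 h2).1)
    have hpm : ∀ p : (Fin n → V) × V, p ∈ (T ×ˢ (Finset.univ : Finset V)).filter (fun p => p.2 ∈ μ p.1) ↔
        p.1 ∈ T ∧ p.2 ∈ μ p.1 := by
      intro p
      simp
    have key : ∀ p : (Fin n → V) × V, p.1 ∈ T → p.2 ∈ μ p.1 → ∀ j, d j = c p.2 →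
        Function.update p.1 j p.2 ∈ T ∧ p.1 j ∈ μ (Function.update p.1 j p.2) ∧ p.1 j ≠ p.2 ∧
        (μ (Function.update p.1 j p.2)).erase (p.1 j) = (μ p.1).erase p.2 ∧
        w (Fin.cons (p.1 j) (Function.update p.1 j p.2)) = - w (Fin.cons p.2 p.1) := by
      intro p hp1 hp2 j hj
      have h3 := (hTm _).1 hp1
      have h4 := (hμm _ _).1 hp2
      have hinj : ∀ l, p.1 l = p.1 j → l = j := by
        intro l hl
        apply hdi
        rw [← (h3 l).2, ← (h3 j).2, hl]
      refine ⟨?_, ?_, h4.2 j, ?_, ?_⟩
      · rw [hTm]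
        intro l
        by_cases hl : l = j
        · subst hl
          rw [Function.update_self]
          exact ⟨h4.1, hj.symm⟩
        · rw [Function.update_of_ne hl]
          exact h3 l
      · rw [hμm]
        refine ⟨(h3 j).1, fun l => ?_⟩
        by_cases hl : l = j
        · subst hl
          rw [Function.update_self]
          exact fun h' => h4.2 _ h'.symm
        · rw [Function.update_of_ne hl]
          exact fun h' => hl (hinj l h')
      · ext x
        rw [Finset.mem_erase, Finset.mem_erase, hμm, hμm]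
        constructor
        · rintro ⟨hx1, hx2, hx3⟩
          refine ⟨?_, hx2, ?_⟩
          · intro hx
            have := hx3 j
            rw [Function.update_self] at this
            exact this hx.symm
          · intro l
            by_cases hl : l = j
            · subst hl
              exact fun h' => hx1 h'.symm
            · have := hx3 l
              rwa [Function.update_of_ne hl] at this
        · rintro ⟨hx1, hx2, hx3⟩
          refine ⟨fun h' => hx3 j h'.symm, hx2, ?_⟩
          intro l
          by_cases hl : l = j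
          · subst hl
            rw [Function.update_self]
            exact fun h' => hx1 h'.symm
          · rw [Function.update_of_ne hl]
            exact hx3 l
      · have hcons : (Fin.cons (p.1 j) (Function.update p.1 j p.2) : Fin (n + 1) → V) =
            (Fin.cons p.2 p.1 : Fin (n + 1) → V) ∘ (Equiv.swap (0 : Fin (n + 1)) j.succ) := by
          funext i
          refine Fin.cases ?_ (fun l => ?_) i
          · simp
          · by_cases hl : l = j
            · subst hl
              simp
            · rw [Fin.cons_succ, Function.update_of_ne hl, Function.comp,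
                Equiv.swap_apply_of_ne_of_ne (Fin.succ_ne_zero l) (fun h' => hl (Fin.succ_injective _ h')),
                Fin.cons_succ]
        rw [hcons, hw.2, Equiv.Perm.sign_swap (Fin.succ_ne_zero j).symm]
        simp
    refine Finset.sum_involution (fun p hp =>
      (Function.update p.1 (Classical.choose (hJ p hp)) p.2, p.1 (Classical.choose (hJ p hp)))) ?_ ?_ ?_ ?_
    · intro p hp
      have hk := key p ((hpm p).1 hp).1 ((hpm p).1 hp).2 _ (Classical.choose_spec (hJ p hp))
      dsimp only
      rw [hk.2.2.2.1, hk.2.2.2.2, map_neg, add_neg_cancel]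
    · intro p hp _ hEq
      have hk := key p ((hpm p).1 hp).1 ((hpm p).1 hp).2 _ (Classical.choose_spec (hJ p hp))
      exact hk.2.2.1 (congrArg Prod.snd hEq)
    · intro p hp
      have hk := key p ((hpm p).1 hp).1 ((hpm p).1 hp).2 _ (Classical.choose_spec (hJ p hp))
      rw [hpm]
      exact ⟨hk.1, hk.2.1⟩
    · intro p hp
      have hs := Classical.choose_spec (hJ p hp)
      have hmem := (hpm (Function.update p.1 (Classical.choose (hJ p hp)) p.2, p.1 (Classical.choose (hJ p hp)))).2 ⟨(key p ((hpm p).1 hp).1 ((hpm p).1 hp).2 _ hs).1,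
        (key p ((hpm p).1 hp).1 ((hpm p).1 hp).2 _ hs).2.1⟩
      have hs' := Classical.choose_spec (hJ _ hmem)
      have hjj : Classical.choose (hJ _ hmem) = Classical.choose (hJ p hp) := by
        apply hdi
        rw [hs']
        exact ((hTm _).1 ((hpm p).1 hp).1 _).2
      dsimp only
      apply Prod.ext
      · dsimp only
        rw [hjj]
        simp
      · dsimp only
        rw [hjj]
        simp
  have hfin : (1 : K) = 0 := by
    rw [← hL1, ← hL2]
    exact Finset.sum_congr rfl fun a _ => by rw [hzw a]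
  exact one_ne_zero hfin

theorem le_reg_of_hasP {V : Type*} [Fintype V] (K : Type*) [Field K] (G : SimpleGraph V) (D W : Finset V) (c : V → V)
    (h : HasP G D W c) : (((W \ D).card : ℕ) : ℕ∞) ≤ reg (ngIdeal K G) := by
  let d : Fin D.card → V := fun j => (D.equivFin.symm j : V)
  have hdi : Function.Injective d := fun a b hab => D.equivFin.symm.injective (Subtype.ext hab)
  have hdD : ∀ j, d j ∈ D := fun j => (D.equivFin.symm j).2
  have hDd : ∀ x ∈ D, ∃ j, d j = x := fun x hx => ⟨D.equivFin ⟨x, hx⟩, by simp [d]⟩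
  have hT : TorNeZero (ngIdeal K G) D.card (W \ D).card :=
    ⟨zc (ngIdeal K G) (W \ D) d, zc_alt _ _ d hdi, zc_hom _ _ d, zc_cycle K G D W c h d hdD,
      not_boundary K G D W c h d hdi hdD hDd⟩
  exact le_iSup (fun e : {e : ℕ // ∃ i, TorNeZero (ngIdeal K G) i e} => (e.1 : ℕ∞)) ⟨(W \ D).card, D.card, hT⟩

end

end Pool.Agent.helper37.VN
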