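import Pool.Agent.helper37.VN.Cnt

set_option autoImplicit false

/-!
# VN-05: rows of a random graph are independent

`X`, `Q` disjoint sets of vertices, `p z x` a prescribed pattern. The number of graphs in which for no `z ∈ Q` the
adjacencies between `z` and `X` agree with the pattern is `(1 - 2^{-|X|})^{|Q|}` times the number of all graphs.

Proof. Induction on `Q`. Step: let `Q = insert z Q'`. For a subset `T ⊆ X` let `Φ_T C` be the graph obtained from `C` by
making `z` adjacent to exactly the elements of `T` among `X` (all other pairs unchanged). Among the graphs which satisfy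
the condition for `Q'` the classes {row of `z` on `X` equals `T`}, `T ⊆ X`, all have the same size: `Φ_{T'}` is a
bijection from the class of `T` onto the class of `T'` (inverse `Φ_T`), and it keeps the condition for `Q'`, because the
pairs `{z', x}` with `z' ∈ Q'`, `x ∈ X` are not changed (`z' ≠ z`, and `z' ≠ x`, `x ≠ z` as `Q` and `X` are disjoint). So
exactly the fraction `1 - 2^{-|X|}` of them has row different from the pattern.
(Alternative: identify `SimpleGraph V` with functions to `Bool` on the non-diagonal elements of `Sym2 V`, split off the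
coordinates `{z, x}`, `z ∈ Q`, `x ∈ X`, and use `cnt_pi`, `cnt_prod`, `cnt_equiv`.)
-/

namespace Pool.Agent.helper37.VN

open scoped Classical

noncomputable section

/-- Prescribe the adjacencies between `z` and the elements of `X`. -/
private def Row_phi {V : Type*} (X : Finset V) (z : V) (T : Finset V) (C : SimpleGraph V) :
    SimpleGraph V where
  Adj a b := a ≠ b ∧ ((a = z ∧ b ∈ X ∧ b ∈ T) ∨ (b = z ∧ a ∈ X ∧ a ∈ T) ∨
    (¬ (a = z ∧ b ∈ X) ∧ ¬ (b = z ∧ a ∈ X) ∧ C.Adj a b))
  symm := ⟨by
    intro a b h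
    have := C.adj_comm a b
    have h2 : a ≠ b ↔ b ≠ a := ne_comm
    tauto⟩
  loopless := ⟨fun a h => h.1 rfl⟩

private theorem Row_phi_adj {V : Type*} {X : Finset V} {z : V} {T : Finset V} {C : SimpleGraph V}
    {a b : V} : (Row_phi X z T C).Adj a b ↔ a ≠ b ∧ ((a = z ∧ b ∈ X ∧ b ∈ T) ∨
      (b = z ∧ a ∈ X ∧ a ∈ T) ∨ (¬ (a = z ∧ b ∈ X) ∧ ¬ (b = z ∧ a ∈ X) ∧ C.Adj a b)) := Iff.rfl

private theorem Row_phi_z {V : Type*} {X : Finset V} {z : V} (hz : z ∉ X) (T : Finset V)
    (C : SimpleGraph V) {x : V} (hx : x ∈ X) : (Row_phi X z T C).Adj z x ↔ x ∈ T := by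
  have h1 : z ≠ x := fun h => hz (h ▸ hx)
  rw [Row_phi_adj]
  tauto

private theorem Row_phi_other {V : Type*} {X : Finset V} {z : V} (hz : z ∉ X) (T : Finset V)
    (C : SimpleGraph V) {z' x : V} (hz' : z' ≠ z) (hzX : z' ∉ X) (hx : x ∈ X) :
    (Row_phi X z T C).Adj z' x ↔ C.Adj z' x := by
  have h1 : z' ≠ x := fun h => hzX (h ▸ hx)
  have h2 : x ≠ z := fun h => hz (h ▸ hx)
  rw [Row_phi_adj]
  tauto

private theorem Row_phi_phi {V : Type*} {X : Finset V} {z : V} (T T' : Finset V)
    (C : SimpleGraph V) : Row_phi X z T (Row_phi X z T' C) = Row_phi X z T C := by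
  ext a b
  rw [Row_phi_adj, Row_phi_adj, Row_phi_adj]
  tauto

/-- The row of `z` on `X`. -/
private def Row_row {V : Type*} (X : Finset V) (z : V) (C : SimpleGraph V) : Finset V :=
  X.filter fun x => C.Adj z x

private theorem Row_mem_row {V : Type*} {X : Finset V} {z : V} {C : SimpleGraph V} {x : V} :
    x ∈ Row_row X z C ↔ x ∈ X ∧ C.Adj z x := by
  unfold Row_row
  rw [Finset.mem_filter]

private theorem Row_phi_row {V : Type*} (X : Finset V) (z : V) (C : SimpleGraph V) :
    Row_phi X z (Row_row X z C) C = C := by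
  ext a b
  rw [Row_phi_adj, Row_mem_row, Row_mem_row]
  constructor
  · rintro ⟨-, ⟨h1, h2, -, h3⟩ | ⟨h1, h2, -, h3⟩ | ⟨-, -, h⟩⟩
    · rw [h1]
      exact h3
    · rw [h1]
      exact h3.symm
    · exact h
  · intro h
    refine ⟨h.ne, ?_⟩
    by_cases h1 : a = z ∧ b ∈ X
    · exact Or.inl ⟨h1.1, h1.2, h1.2, h1.1 ▸ h⟩
    · by_cases h2 : b = z ∧ a ∈ X
      · exact Or.inr (Or.inl ⟨h2.1, h2.2, h2.2, h2.1 ▸ h.symm⟩)
      · exact Or.inr (Or.inr ⟨h1, h2, h⟩)

private theorem Row_row_phi {V : Type*} {X : Finset V} {z : V} (hz : z ∉ X) {T : Finset V}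
    (hT : T ⊆ X) (C : SimpleGraph V) : Row_row X z (Row_phi X z T C) = T := by
  ext x
  rw [Row_mem_row]
  constructor
  · rintro ⟨h1, h2⟩
    exact (Row_phi_z hz T C h1).1 h2
  · intro h
    exact ⟨hT h, (Row_phi_z hz T C (hT h)).2 h⟩

private theorem Row_card {V : Type*} [Finite V] {X : Finset V} {z : V} (hz : z ∉ X)
    (P : SimpleGraph V → Prop) (hP : ∀ C T, P C → P (Row_phi X z T C)) {T₀ : Finset V}
    (hT₀ : T₀ ⊆ X) :
    cnt (fun C => P C ∧ Row_row X z C = T₀) * 2 ^ X.card = cnt P := by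
  let e : {C // P C} ≃ {C // P C ∧ Row_row X z C = T₀} × {T // T ∈ X.powerset} :=
    { toFun := fun C => (⟨Row_phi X z T₀ C.1, hP _ _ C.2, Row_row_phi hz hT₀ _⟩,
        ⟨Row_row X z C.1, by
          rw [Finset.mem_powerset]
          intro x hx
          exact (Row_mem_row.1 hx).1⟩)
      invFun := fun t => ⟨Row_phi X z t.2.1 t.1.1, hP _ _ t.1.2.1⟩
      left_inv := by
        intro C
        apply Subtype.ext
        show Row_phi X z (Row_row X z C.1) (Row_phi X z T₀ C.1) = C.1
        rw [Row_phi_phi, Row_phi_row]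
      right_inv := by
        rintro ⟨⟨C, hC, hrow⟩, ⟨T, hT⟩⟩
        rw [Finset.mem_powerset] at hT
        apply Prod.ext
        · apply Subtype.ext
          show Row_phi X z T₀ (Row_phi X z T C) = C
          rw [Row_phi_phi, ← hrow, Row_phi_row]
        · apply Subtype.ext
          exact Row_row_phi hz hT C }
  have h1 := Nat.card_congr e
  rw [Nat.card_prod, Nat.card_eq_fintype_card (α := {T // T ∈ X.powerset}), Fintype.card_coe,
    Finset.card_powerset] at h1
  unfold cnt
  rw [h1]
  push_cast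
  rfl

private theorem Row_cnt_and_not {α : Type*} [Finite α] (P R : α → Prop) :
    cnt (fun a => P a ∧ ¬ R a) = cnt P - cnt (fun a => P a ∧ R a) := by
  have := Fintype.ofFinite α
  rw [cnt_eq_sum, cnt_eq_sum, cnt_eq_sum, ← Finset.sum_sub_distrib]
  refine Finset.sum_congr rfl fun a _ => ?_
  by_cases hp : P a <;> by_cases hr : R a <;> simp [hp, hr]

theorem cnt_avoid {V : Type*} [Finite V] (X Q : Finset V) (hd : Disjoint X Q) (p : V → V → Prop) :
    cnt (fun C : SimpleGraph V => ∀ z ∈ Q, ∃ x ∈ X, ¬ (C.Adj z x ↔ p z x)) =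
      (1 - (1 / 2 : ℝ) ^ X.card) ^ Q.card * (Nat.card (SimpleGraph V) : ℝ) := by
  induction Q using Finset.induction_on with
  | empty =>
    rw [← cnt_true (SimpleGraph V)]
    simp
  | insert z Q hz ih =>
    have hzX : z ∉ X := fun h => (Finset.disjoint_left.1 hd h) (Finset.mem_insert_self _ _)
    have hd' : Disjoint X Q := hd.mono_right (Finset.subset_insert _ _)
    have ih' := ih hd'
    set P : SimpleGraph V → Prop := fun C => ∀ z ∈ Q, ∃ x ∈ X, ¬ (C.Adj z x ↔ p z x) with hPdef
    have hP : ∀ C T, P C → P (Row_phi X z T C) := by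
      intro C T hC z' hz'
      obtain ⟨x, hx, h⟩ := hC z' hz'
      refine ⟨x, hx, ?_⟩
      have hne : z' ≠ z := fun h => hz (h ▸ hz')
      have hzX' : z' ∉ X := fun h => (Finset.disjoint_left.1 hd' h) hz'
      rw [Row_phi_other hzX T C hne hzX' hx]
      exact h
    have hT₀ : X.filter (p z) ⊆ X := Finset.filter_subset _ _
    have h1 := Row_card hzX P hP hT₀
    have h2 : cnt (fun C : SimpleGraph V => ∀ z' ∈ insert z Q, ∃ x ∈ X,
        ¬ (C.Adj z' x ↔ p z' x)) = cnt (fun C => P C ∧ ¬ Row_row X z C = X.filter (p z)) := by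
      refine cnt_congr fun C => ?_
      rw [Finset.forall_mem_insert, and_comm]
      refine and_congr Iff.rfl ?_
      rw [Finset.ext_iff]
      push Not
      constructor
      · rintro ⟨x, hx, h⟩
        refine ⟨x, ?_⟩
        rw [Row_mem_row, Finset.mem_filter]
        tauto
      · rintro ⟨x, h⟩
        rw [Row_mem_row, Finset.mem_filter] at h
        refine ⟨x, ?_⟩
        tauto
    rw [h2, Row_cnt_and_not, Finset.card_insert_of_notMem hz, pow_succ]
    have h3 : cnt (fun C => P C ∧ Row_row X z C = X.filter (p z)) =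
        (1 / 2 : ℝ) ^ X.card * cnt P := by
      rw [← h1, one_div, inv_pow]
      field_simp
    rw [h3, ih']
    ring

end

end Pool.Agent.helper37.VN
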