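import Pool.Agent.helper37.VN.Cnt

set_option autoImplicit false

/-!
# VN-08: second moment for dominating transversals

`A z : U → Bool`, `U = Fin k × Fin k` (`k` pools of size `k`), `z ∈ Fin r`. A transversal `D : Fin k → Fin k` dominates if
for every `z` some `A z (i, D i)` is true.

Proof. Put `q = 2^{-k}`, `M = 2^{k²}` (the number of functions `U → Bool`), `T = M^r` (the number of all `A`), `N A` the
number of dominating transversals. By `cnt_pi` the number of `A` for which `D` dominates is `(M (1 - q))^r`, and the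
number of `A` for which both `D` and `D'` dominate is `(M (1 - 2 q + q² 2^j))^r`, `j = agr D D'`: a column fails for `D`
if `k` given bits are zero (`M q` columns), for both if `2k - j` given bits are zero (`M q² 2^j` columns). Since
`1 - 2q + q² 2^j = (1 - q)² rho k j`, this is `(M (1-q)²  rho k j)^r`.
Cauchy-Schwarz: `(∑_A N A)² ≤ #{A : N A ≠ 0} * ∑_A (N A)²`, that is
`(k^k (1-q)^r T)² ≤ #{N ≠ 0} * T (1-q)^{2r} ∑_{D,D'} rho^r`, so `#{N ≠ 0} ≥ T / a`,
`a = (∑_{D,D'} rho^r) / k^{2k} ≥ 1`, and `#{N = 0} ≤ T (1 - 1/a) ≤ T (a - 1)`.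
-/

namespace Pool.Agent.helper37.VN

noncomputable section

/-- The transversal `D` dominates. -/
def Dom {k r : ℕ} (A : Fin r → (Fin k × Fin k → Bool)) (D : Fin k → Fin k) : Prop := ∀ z, ∃ i, A z (i, D i) = true

/-- The number of agreements. -/
def agr {k : ℕ} (D D' : Fin k → Fin k) : ℕ := (Finset.univ.filter (fun i => D i = D' i)).card

/-- The correlation factor. -/
def rho (k j : ℕ) : ℝ := 1 + ((2 : ℝ) ^ j - 1) / ((2 : ℝ) ^ k - 1) ^ 2

private theorem Sea_two (b : Prop) [Decidable b] :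
    cnt (fun c : Bool => b → c = false) = if b then 1 else 2 := by
  unfold cnt
  by_cases hb : b
  · rw [if_pos hb]
    have h : Nat.card {c : Bool // b → c = false} = 1 := by
      rw [Nat.card_eq_one_iff_unique]
      refine ⟨⟨fun x y => Subtype.ext ?_⟩, ⟨⟨false, fun _ => rfl⟩⟩⟩
      rw [x.2 hb, y.2 hb]
    rw [h, Nat.cast_one]
  · rw [if_neg hb]
    have h : Nat.card {c : Bool // b → c = false} = 2 := by
      rw [Nat.card_congr (Equiv.subtypeUnivEquiv fun c hb' => absurd hb' hb)]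
      simp
    rw [h, Nat.cast_ofNat]

/-- The number of columns with prescribed zeros. -/
private theorem Sea_zero {U : Type*} [Fintype U] (S : Finset U) :
    cnt (fun c : U → Bool => ∀ u ∈ S, c u = false) * 2 ^ S.card =
      (Nat.card (U → Bool) : ℝ) := by
  classical
  have h1 : cnt (fun c : U → Bool => ∀ u ∈ S, c u = false) =
      ∏ u, cnt (fun b : Bool => u ∈ S → b = false) := cnt_pi (fun u b => u ∈ S → b = false)
  have h2 : (2 : ℝ) ^ S.card = ∏ u, if u ∈ S then (2 : ℝ) else 1 := by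
    rw [Finset.prod_ite_mem, Finset.univ_inter, Finset.prod_const]
  have h3 : (Nat.card (U → Bool) : ℝ) = ∏ _u : U, (2 : ℝ) := by
    rw [Nat.card_eq_fintype_card, Fintype.card_fun, Fintype.card_bool, Finset.prod_const,
      Finset.card_univ]
    push_cast
    rfl
  rw [h1, h2, h3, ← Finset.prod_mul_distrib]
  refine Finset.prod_congr rfl fun u _ => ?_
  rw [Sea_two]
  split_ifs <;> norm_num

private def Sea_S {k : ℕ} (D : Fin k → Fin k) : Finset (Fin k × Fin k) :=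
  Finset.univ.image fun i => (i, D i)

private theorem Sea_mem {k : ℕ} (D : Fin k → Fin k) (c : Fin k × Fin k → Bool) :
    (∀ u ∈ Sea_S D, c u = false) ↔ ∀ i, c (i, D i) = false := by
  unfold Sea_S
  constructor
  · intro h i
    exact h _ (Finset.mem_image.2 ⟨i, Finset.mem_univ i, rfl⟩)
  · intro h u hu
    obtain ⟨i, _, rfl⟩ := Finset.mem_image.1 hu
    exact h i

private theorem Sea_card {k : ℕ} (D : Fin k → Fin k) : (Sea_S D).card = k := by
  unfold Sea_S
  rw [Finset.card_image_of_injective, Finset.card_univ, Fintype.card_fin]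
  intro i j h
  exact (Prod.ext_iff.1 h).1

private theorem Sea_inter {k : ℕ} (D D' : Fin k → Fin k) :
    (Sea_S D ∩ Sea_S D').card = agr D D' := by
  have e : Sea_S D ∩ Sea_S D' =
      (Finset.univ.filter (fun i => D i = D' i)).image fun i => (i, D i) := by
    unfold Sea_S
    ext ⟨a, b⟩
    simp only [Finset.mem_inter, Finset.mem_image, Finset.mem_univ, true_and, Prod.mk.injEq,
      Finset.mem_filter]
    constructor
    · rintro ⟨⟨i, rfl, rfl⟩, ⟨j, hj, hj2⟩⟩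
      subst hj
      exact ⟨j, hj2.symm, rfl, rfl⟩
    · rintro ⟨i, h1, rfl, rfl⟩
      exact ⟨⟨i, rfl, rfl⟩, ⟨i, rfl, h1.symm⟩⟩
  rw [e, agr, Finset.card_image_of_injective]
  intro i j h
  exact (Prod.ext_iff.1 h).1

private theorem Sea_union {k : ℕ} (D D' : Fin k → Fin k) :
    (Sea_S D ∪ Sea_S D').card + agr D D' = 2 * k := by
  rw [← Sea_inter, Finset.card_union_add_card_inter, Sea_card, Sea_card, two_mul]

private theorem Sea_incl {α : Type*} [Finite α] (P Q : α → Prop) :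
    cnt (fun a => P a ∧ Q a) = (Nat.card α : ℝ) - cnt (fun a => ¬ P a) - cnt (fun a => ¬ Q a) +
      cnt (fun a => ¬ P a ∧ ¬ Q a) := by
  have := Fintype.ofFinite α
  rw [← cnt_true, cnt_eq_sum, cnt_eq_sum, cnt_eq_sum, cnt_eq_sum, cnt_eq_sum,
    ← Finset.sum_sub_distrib, ← Finset.sum_sub_distrib, ← Finset.sum_add_distrib]
  refine Finset.sum_congr rfl fun a _ => ?_
  by_cases hp : P a <;> by_cases hq : Q a <;> simp [hp, hq]

private theorem Sea_one_col {k : ℕ} (D : Fin k → Fin k) :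
    cnt (fun c : Fin k × Fin k → Bool => ¬ ∃ i, c (i, D i) = true) * 2 ^ k =
      (Nat.card (Fin k × Fin k → Bool) : ℝ) := by
  have h := Sea_zero (Sea_S D)
  rw [Sea_card] at h
  rw [← h]
  congr 1
  refine cnt_congr fun c => ?_
  rw [Sea_mem]
  simp

private theorem Sea_two_col {k : ℕ} (D D' : Fin k → Fin k) :
    cnt (fun c : Fin k × Fin k → Bool => (¬ ∃ i, c (i, D i) = true) ∧
      ¬ ∃ i, c (i, D' i) = true) * (2 ^ k) ^ 2 =
      (Nat.card (Fin k × Fin k → Bool) : ℝ) * 2 ^ agr D D' := by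
  have h := Sea_zero (Sea_S D ∪ Sea_S D')
  have e : ((2 : ℝ) ^ k) ^ 2 = 2 ^ (Sea_S D ∪ Sea_S D').card * 2 ^ agr D D' := by
    rw [← pow_add, Sea_union, ← pow_mul, mul_comm]
  rw [e, ← h, ← mul_assoc]
  congr 2
  refine cnt_congr fun c => ?_
  have e2 : (∀ u ∈ Sea_S D ∪ Sea_S D', c u = false) ↔
      (∀ u ∈ Sea_S D, c u = false) ∧ ∀ u ∈ Sea_S D', c u = false := by
    simp only [Finset.mem_union, or_imp, forall_and]
  rw [e2, Sea_mem, Sea_mem]
  simp

private theorem Sea_x {k : ℕ} (hk : 1 ≤ k) : (2 : ℝ) ≤ 2 ^ k := by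
  calc (2 : ℝ) = 2 ^ 1 := by norm_num
    _ ≤ 2 ^ k := pow_le_pow_right₀ (by norm_num) hk

/-- The number of matrices dominated by `D`. -/
private theorem Sea_first {k r : ℕ} (D : Fin k → Fin k) :
    cnt (fun A : Fin r → (Fin k × Fin k → Bool) => Dom A D) =
      ((Nat.card (Fin k × Fin k → Bool) : ℝ) * (1 - 1 / 2 ^ k)) ^ r := by
  have h1 : cnt (fun A : Fin r → (Fin k × Fin k → Bool) => Dom A D) =
      ∏ _z : Fin r, cnt (fun c : Fin k × Fin k → Bool => ∃ i, c (i, D i) = true) :=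
    cnt_pi (fun (_ : Fin r) (c : Fin k × Fin k → Bool) => ∃ i, c (i, D i) = true)
  have h2 : cnt (fun c : Fin k × Fin k → Bool => ∃ i, c (i, D i) = true) =
      (Nat.card (Fin k × Fin k → Bool) : ℝ) * (1 - 1 / 2 ^ k) := by
    have h3 := cnt_not (fun c : Fin k × Fin k → Bool => ∃ i, c (i, D i) = true)
    have h4 := Sea_one_col D
    rw [h3] at h4
    have hx : (2 : ℝ) ^ k ≠ 0 := by positivity
    field_simp
    linarith
  rw [h1, h2, Finset.prod_const, Finset.card_univ, Fintype.card_fin]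

/-- The number of matrices dominated by `D` and by `D'`. -/
private theorem Sea_second {k r : ℕ} (hk : 1 ≤ k) (D D' : Fin k → Fin k) :
    cnt (fun A : Fin r → (Fin k × Fin k → Bool) => Dom A D ∧ Dom A D') =
      ((Nat.card (Fin k × Fin k → Bool) : ℝ) * (1 - 1 / 2 ^ k) ^ 2 * rho k (agr D D')) ^ r := by
  have h0 : cnt (fun A : Fin r → (Fin k × Fin k → Bool) => Dom A D ∧ Dom A D') =
      cnt (fun A : Fin r → (Fin k × Fin k → Bool) => ∀ z, (∃ i, A z (i, D i) = true) ∧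
        ∃ i, A z (i, D' i) = true) := by
    refine cnt_congr fun A => ?_
    unfold Dom
    rw [forall_and]
  have h1 : cnt (fun A : Fin r → (Fin k × Fin k → Bool) => ∀ z, (∃ i, A z (i, D i) = true) ∧
        ∃ i, A z (i, D' i) = true) =
      ∏ _z : Fin r, cnt (fun c : Fin k × Fin k → Bool => (∃ i, c (i, D i) = true) ∧
        ∃ i, c (i, D' i) = true) :=
    cnt_pi (fun (_ : Fin r) (c : Fin k × Fin k → Bool) => (∃ i, c (i, D i) = true) ∧
      ∃ i, c (i, D' i) = true)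
  have h2 : cnt (fun c : Fin k × Fin k → Bool => (∃ i, c (i, D i) = true) ∧
        ∃ i, c (i, D' i) = true) =
      (Nat.card (Fin k × Fin k → Bool) : ℝ) * (1 - 1 / 2 ^ k) ^ 2 * rho k (agr D D') := by
    have h3 := Sea_incl (fun c : Fin k × Fin k → Bool => ∃ i, c (i, D i) = true)
      (fun c : Fin k × Fin k → Bool => ∃ i, c (i, D' i) = true)
    have h4 := Sea_one_col D
    have h5 := Sea_one_col D'
    have h6 := Sea_two_col D D'
    have hx := Sea_x hk
    unfold rho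
    obtain ⟨x, hxd⟩ : ∃ x : ℝ, x = 2 ^ k := ⟨_, rfl⟩
    obtain ⟨y, hyd⟩ : ∃ y : ℝ, y = 2 ^ agr D D' := ⟨_, rfl⟩
    obtain ⟨M, hMd⟩ : ∃ M : ℝ, M = (Nat.card (Fin k × Fin k → Bool) : ℝ) := ⟨_, rfl⟩
    rw [← hxd, ← hMd] at h4 h5 h6
    rw [← hyd] at h6
    rw [← hxd] at hx
    rw [← hMd] at h3
    rw [← hxd, ← hyd, ← hMd, h3]
    have hx0 : x ≠ 0 := by linarith
    have hx1 : x - 1 ≠ 0 := by linarith
    rw [eq_div_of_mul_eq hx0 h4, eq_div_of_mul_eq hx0 h5, eq_div_of_mul_eq (pow_ne_zero 2 hx0) h6]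
    field_simp
    ring
  rw [h0, h1, h2, Finset.prod_const, Finset.card_univ, Fintype.card_fin]

open scoped Classical in
private def Sea_ind {k r : ℕ} (D : Fin k → Fin k) (A : Fin r → (Fin k × Fin k → Bool)) : ℝ :=
  if Dom A D then 1 else 0

private theorem Sea_sum_one {k r : ℕ} :
    ∑ A : Fin r → (Fin k × Fin k → Bool), ∑ D : Fin k → Fin k, Sea_ind D A =
      ∑ D : Fin k → Fin k, cnt (fun A : Fin r → (Fin k × Fin k → Bool) => Dom A D) := by
  rw [Finset.sum_comm]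
  refine Finset.sum_congr rfl fun D _ => ?_
  rw [cnt_eq_sum]
  rfl

private theorem Sea_sum_two {k r : ℕ} :
    ∑ A : Fin r → (Fin k × Fin k → Bool), (∑ D : Fin k → Fin k, Sea_ind D A) ^ 2 =
      ∑ D : Fin k → Fin k, ∑ D' : Fin k → Fin k,
        cnt (fun A : Fin r → (Fin k × Fin k → Bool) => Dom A D ∧ Dom A D') := by
  have h1 : ∀ A : Fin r → (Fin k × Fin k → Bool), (∑ D : Fin k → Fin k, Sea_ind D A) ^ 2 =
      ∑ D : Fin k → Fin k, ∑ D' : Fin k → Fin k, Sea_ind D A * Sea_ind D' A := by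
    intro A
    rw [sq, Finset.sum_mul_sum]
  simp_rw [h1]
  rw [Finset.sum_comm]
  refine Finset.sum_congr rfl fun D _ => ?_
  rw [Finset.sum_comm]
  refine Finset.sum_congr rfl fun D' _ => ?_
  rw [cnt_eq_sum]
  refine Finset.sum_congr rfl fun A _ => ?_
  unfold Sea_ind
  by_cases h : Dom A D <;> by_cases h' : Dom A D' <;> simp [h, h']

private theorem Sea_cs {k r : ℕ} :
    (∑ A : Fin r → (Fin k × Fin k → Bool), ∑ D : Fin k → Fin k, Sea_ind D A) ^ 2 ≤
      cnt (fun A : Fin r → (Fin k × Fin k → Bool) => ∃ D, Dom A D) *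
        ∑ A : Fin r → (Fin k × Fin k → Bool), (∑ D : Fin k → Fin k, Sea_ind D A) ^ 2 := by
  classical
  have h1 := Finset.sum_mul_sq_le_sq_mul_sq Finset.univ
    (fun A : Fin r → (Fin k × Fin k → Bool) => if ∃ D, Dom A D then (1 : ℝ) else 0)
    (fun A => ∑ D : Fin k → Fin k, Sea_ind D A)
  have e1 : ∀ A : Fin r → (Fin k × Fin k → Bool),
      (if ∃ D, Dom A D then (1 : ℝ) else 0) * (∑ D : Fin k → Fin k, Sea_ind D A) =
        ∑ D : Fin k → Fin k, Sea_ind D A := by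
    intro A
    split_ifs with h
    · rw [one_mul]
    · rw [zero_mul]
      refine (Finset.sum_eq_zero fun D _ => ?_).symm
      unfold Sea_ind
      rw [if_neg fun h' => h ⟨D, h'⟩]
  have e2 : ∑ A : Fin r → (Fin k × Fin k → Bool), (if ∃ D, Dom A D then (1 : ℝ) else 0) ^ 2 =
      cnt (fun A : Fin r → (Fin k × Fin k → Bool) => ∃ D, Dom A D) := by
    rw [cnt_eq_sum]
    refine Finset.sum_congr rfl fun A _ => ?_
    by_cases h : ∃ D, Dom A D <;> simp [h]
  simp_rw [e1] at h1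
  rw [e2] at h1
  exact h1

theorem sec_moment (k r : ℕ) (hk : 1 ≤ k) :
    cnt (fun A : Fin r → (Fin k × Fin k → Bool) => ¬ ∃ D, Dom A D) ≤
      ((∑ D : Fin k → Fin k, ∑ D' : Fin k → Fin k, rho k (agr D D') ^ r) / ((k : ℝ) ^ k) ^ 2 - 1) *
        (Nat.card (Fin r → (Fin k × Fin k → Bool)) : ℝ) := by
  rw [cnt_not]
  have hT : (Nat.card (Fin r → (Fin k × Fin k → Bool)) : ℝ) =
      (Nat.card (Fin k × Fin k → Bool) : ℝ) ^ r := by
    rw [Nat.card_fun, Nat.card_eq_fintype_card (α := Fin r), Fintype.card_fin]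
    push_cast
    rfl
  have hcs := Sea_cs (k := k) (r := r)
  rw [Sea_sum_one, Sea_sum_two] at hcs
  have hone : ∑ D : Fin k → Fin k, cnt (fun A : Fin r → (Fin k × Fin k → Bool) => Dom A D) =
      (k : ℝ) ^ k * ((Nat.card (Fin k × Fin k → Bool) : ℝ) * (1 - 1 / 2 ^ k)) ^ r := by
    rw [Finset.sum_congr rfl fun D _ => Sea_first D, Finset.sum_const, Finset.card_univ,
      Fintype.card_fun, Fintype.card_fin, nsmul_eq_mul]
    push_cast
    rfl
  have htwo : ∑ D : Fin k → Fin k, ∑ D' : Fin k → Fin k,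
        cnt (fun A : Fin r → (Fin k × Fin k → Bool) => Dom A D ∧ Dom A D') =
      ((Nat.card (Fin k × Fin k → Bool) : ℝ) * (1 - 1 / 2 ^ k) ^ 2) ^ r *
        ∑ D : Fin k → Fin k, ∑ D' : Fin k → Fin k, rho k (agr D D') ^ r := by
    rw [Finset.mul_sum]
    refine Finset.sum_congr rfl fun D _ => ?_
    rw [Finset.mul_sum]
    refine Finset.sum_congr rfl fun D' _ => ?_
    rw [Sea_second hk, mul_pow _ (rho k (agr D D'))]
  rw [hone, htwo] at hcs
  rw [hT]
  have hx := Sea_x hk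
  have hM : (0 : ℝ) < (Nat.card (Fin k × Fin k → Bool) : ℝ) := by
    exact_mod_cast Nat.card_pos
  have hP0 := cnt_nonneg (fun A : Fin r → (Fin k × Fin k → Bool) => ∃ D, Dom A D)
  obtain ⟨M, hMd⟩ : ∃ M : ℝ, M = (Nat.card (Fin k × Fin k → Bool) : ℝ) := ⟨_, rfl⟩
  obtain ⟨P, hPd⟩ : ∃ P : ℝ, P = cnt (fun A : Fin r → (Fin k × Fin k → Bool) => ∃ D, Dom A D) :=
    ⟨_, rfl⟩
  obtain ⟨S, hSd⟩ : ∃ S : ℝ, S = ∑ D : Fin k → Fin k, ∑ D' : Fin k → Fin k,
    rho k (agr D D') ^ r := ⟨_, rfl⟩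
  rw [← hMd, ← hPd, ← hSd] at hcs
  rw [← hMd] at hM ⊢
  rw [← hPd] at hP0 ⊢
  rw [← hSd]
  obtain ⟨w, hwd⟩ : ∃ w : ℝ, w = 1 - 1 / 2 ^ k := ⟨_, rfl⟩
  have hw : 0 < w := by
    have h1 : (1 : ℝ) / 2 ^ k ≤ 1 / 2 := one_div_le_one_div_of_le (by norm_num) hx
    rw [hwd]
    linarith
  rw [← hwd] at hcs
  have hK : (0 : ℝ) < (k : ℝ) ^ k := by
    have : (0 : ℝ) < k := by exact_mod_cast hk
    positivity
  have hMr : 0 < M ^ r := pow_pos hM r
  have hwr : 0 < w ^ r := pow_pos hw r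
  have e1 : ((k : ℝ) ^ k * (M * w) ^ r) ^ 2 = ((k : ℝ) ^ k) ^ 2 * M ^ r * (M ^ r * (w ^ r) ^ 2) := by
    rw [mul_pow M w r]
    ring
  have e2 : P * ((M * w ^ 2) ^ r * S) = P * S * (M ^ r * (w ^ r) ^ 2) := by
    rw [mul_pow M (w ^ 2) r, ← pow_mul, ← pow_mul, mul_comm 2 r]
    ring
  rw [e1, e2] at hcs
  have hmain : ((k : ℝ) ^ k) ^ 2 * M ^ r ≤ P * S := le_of_mul_le_mul_right hcs (by positivity)
  obtain ⟨a, had⟩ : ∃ a : ℝ, a = S / ((k : ℝ) ^ k) ^ 2 := ⟨_, rfl⟩
  obtain ⟨T, hTd⟩ : ∃ T : ℝ, T = M ^ r := ⟨_, rfl⟩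
  rw [← had]
  rw [← hTd] at hmain hMr ⊢
  have hPa : T ≤ P * a := by
    rw [had, mul_div_assoc', le_div_iff₀ (by positivity)]
    linarith
  have ha : 0 < a := by
    by_contra hneg
    push Not at hneg
    have := mul_nonpos_of_nonneg_of_nonpos hP0 hneg
    linarith
  have hfin : 0 ≤ a * (a * T - 2 * T + P) := by
    have h1 : 0 ≤ T * (a - 1) ^ 2 := by positivity
    nlinarith
  have hfin2 : 0 ≤ a * T - 2 * T + P := nonneg_of_mul_nonneg_right hfin ha
  linarith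

end

end Pool.Agent.helper37.VN
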