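import Pool.Agent.helper37.VN.Sea

set_option autoImplicit false

/-!
# VN-09: the average of the correlation

Hypotheses: `r / (2^k - 1) ≤ Y`, `0 ≤ Y ≤ 2^m`. Claim: the average of `rho k (agr D D')^r` over all pairs minus one is at
most `2 Y 2^{-k} ((k+1)/k)^k + e^Y 2^k k^m / k^k`.

Proof. For `j ≤ k`: `rho k j ^ r ≤ exp (r (2^j - 1)/(2^k - 1)²) ≤ exp (Y 2^j / 2^k)`, because
`(2^j - 1)/(2^k - 1) ≤ 2^j / 2^k`. If `j + m ≤ k` then `y = Y 2^j/2^k ≤ Y / 2^m ≤ 1`, so `exp y - 1 ≤ 2 y`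
(`exp y ≤ 1 + y + y²` for `0 ≤ y ≤ 1`, or `Real.exp_bound'`, or convexity). If `k < j + m` then
`exp (Y 2^j/2^k) - 1 ≤ exp Y`. So for every pair
`rho k (agr D D')^r - 1 ≤ 2 Y 2^{agr D D'} / 2^k + exp Y * [k < agr D D' + m]`.
For fixed `D`: `∑_{D'} 2^{agr D D'} = (k+1)^k` (product over the coordinates: `2` for the value `D i`, `1` for the other
`k - 1` values), and the number of `D'` with `k < agr D D' + m` is at most `2^k k^m`: choose the set `M` of the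
coordinates where they differ, `|M| = k - agr < m`, at most `k^{|M|} ≤ k^m` functions for each of the at most `2^k` sets.
Sum over `D` (`k^k` functions) and divide by `k^{2k}`.
-/

namespace Pool.Agent.helper37.VN

noncomputable section

private theorem Seb_rho_le (k r j : ℕ) (Y : ℝ) (hk : 1 ≤ k) (hjk : j ≤ k)
    (hY0 : 0 ≤ Y) (hY : (r : ℝ) / ((2 : ℝ) ^ k - 1) ≤ Y) :
    rho k j ^ r ≤ Real.exp (Y * ((2 : ℝ) ^ j / (2 : ℝ) ^ k)) := by
  have h2k : (2 : ℝ) ≤ (2 : ℝ) ^ k := by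
    calc (2 : ℝ) = (2 : ℝ) ^ 1 := (pow_one _).symm
      _ ≤ (2 : ℝ) ^ k := pow_le_pow_right₀ (by norm_num) hk
  have h2j : (1 : ℝ) ≤ (2 : ℝ) ^ j := one_le_pow₀ (by norm_num)
  have hjk' : (2 : ℝ) ^ j ≤ (2 : ℝ) ^ k := pow_le_pow_right₀ (by norm_num) hjk
  have hc : (0 : ℝ) < (2 : ℝ) ^ k - 1 := by linarith
  have hrho0 : 0 ≤ rho k j := by
    unfold rho
    have : 0 ≤ ((2 : ℝ) ^ j - 1) / ((2 : ℝ) ^ k - 1) ^ 2 := by
      apply div_nonneg (by linarith) (by positivity)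
    linarith
  have h1 : rho k j ≤ Real.exp (((2 : ℝ) ^ j - 1) / ((2 : ℝ) ^ k - 1) ^ 2) := by
    unfold rho
    have := Real.add_one_le_exp (((2 : ℝ) ^ j - 1) / ((2 : ℝ) ^ k - 1) ^ 2)
    linarith
  have h2 : rho k j ^ r ≤ Real.exp ((r : ℝ) * (((2 : ℝ) ^ j - 1) / ((2 : ℝ) ^ k - 1) ^ 2)) := by
    rw [Real.exp_nat_mul]
    exact pow_le_pow_left₀ hrho0 h1 r
  refine h2.trans (Real.exp_le_exp.mpr ?_)
  have h3 : ((2 : ℝ) ^ j - 1) / ((2 : ℝ) ^ k - 1) ≤ (2 : ℝ) ^ j / (2 : ℝ) ^ k := by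
    rw [div_le_div_iff₀ hc (by positivity)]
    nlinarith
  have h4 : (r : ℝ) * (((2 : ℝ) ^ j - 1) / ((2 : ℝ) ^ k - 1) ^ 2) =
      ((r : ℝ) / ((2 : ℝ) ^ k - 1)) * (((2 : ℝ) ^ j - 1) / ((2 : ℝ) ^ k - 1)) := by
    field_simp
  rw [h4]
  have h5 : 0 ≤ ((2 : ℝ) ^ j - 1) / ((2 : ℝ) ^ k - 1) := div_nonneg (by linarith) hc.le
  exact mul_le_mul hY h3 h5 hY0

private theorem Seb_pair (k r m j : ℕ) (Y : ℝ) (hk : 1 ≤ k) (hjk : j ≤ k)
    (hY0 : 0 ≤ Y) (hY : (r : ℝ) / ((2 : ℝ) ^ k - 1) ≤ Y) (hm : Y ≤ (2 : ℝ) ^ m) :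
    rho k j ^ r - 1 ≤ 2 * Y / (2 : ℝ) ^ k * (2 : ℝ) ^ j + Real.exp Y * (if k < j + m then 1 else 0) := by
  have h1 := Seb_rho_le k r j Y hk hjk hY0 hY
  have hkpos : (0 : ℝ) < (2 : ℝ) ^ k := by positivity
  have hjpos : (0 : ℝ) < (2 : ℝ) ^ j := by positivity
  have hy0 : 0 ≤ Y * ((2 : ℝ) ^ j / (2 : ℝ) ^ k) := by positivity
  by_cases hc : k < j + m
  · rw [if_pos hc]
    have hle : Y * ((2 : ℝ) ^ j / (2 : ℝ) ^ k) ≤ Y := by
      have : (2 : ℝ) ^ j / (2 : ℝ) ^ k ≤ 1 := by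
        rw [div_le_one hkpos]
        exact pow_le_pow_right₀ (by norm_num) hjk
      calc Y * ((2 : ℝ) ^ j / (2 : ℝ) ^ k) ≤ Y * 1 := mul_le_mul_of_nonneg_left this hY0
        _ = Y := mul_one _
    have h2 : Real.exp (Y * ((2 : ℝ) ^ j / (2 : ℝ) ^ k)) ≤ Real.exp Y := Real.exp_le_exp.mpr hle
    have h3 : 0 ≤ 2 * Y / (2 : ℝ) ^ k * (2 : ℝ) ^ j := by positivity
    linarith
  · rw [if_neg hc]
    have hjm : j + m ≤ k := by omega
    have hle : Y * ((2 : ℝ) ^ j / (2 : ℝ) ^ k) ≤ 1 := by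
      have h4 : Y * ((2 : ℝ) ^ j / (2 : ℝ) ^ k) ≤ (2 : ℝ) ^ m * ((2 : ℝ) ^ j / (2 : ℝ) ^ k) :=
        mul_le_mul_of_nonneg_right hm (by positivity)
      have h5 : (2 : ℝ) ^ m * ((2 : ℝ) ^ j / (2 : ℝ) ^ k) ≤ 1 := by
        rw [← mul_div_assoc, div_le_one hkpos, ← pow_add]
        exact pow_le_pow_right₀ (by norm_num) (by omega)
      exact h4.trans h5
    have h6 : |Y * ((2 : ℝ) ^ j / (2 : ℝ) ^ k)| ≤ 1 := by
      rw [abs_of_nonneg hy0]
      exact hle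
    have h7 := Real.abs_exp_sub_one_le h6
    rw [abs_of_nonneg hy0] at h7
    have h8 := (le_abs_self _).trans h7
    have h9 : 2 * (Y * ((2 : ℝ) ^ j / (2 : ℝ) ^ k)) = 2 * Y / (2 : ℝ) ^ k * (2 : ℝ) ^ j := by
      ring
    rw [h9] at h8
    linarith

private theorem Seb_agr_le {k : ℕ} (D D' : Fin k → Fin k) : agr D D' ≤ k := by
  unfold agr
  calc _ ≤ (Finset.univ : Finset (Fin k)).card := Finset.card_le_card (Finset.filter_subset _ _)
    _ = k := by simp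

private theorem Seb_sum_pow {k : ℕ} (D : Fin k → Fin k) :
    ∑ D' : Fin k → Fin k, (2 : ℝ) ^ agr D D' = ((k : ℝ) + 1) ^ k := by
  have h1 : ∀ D' : Fin k → Fin k, (2 : ℝ) ^ agr D D' = ∏ i, (if D i = D' i then (2 : ℝ) else 1) := by
    intro D'
    unfold agr
    rw [Finset.prod_ite]
    simp
  rw [Finset.sum_congr rfl (fun D' _ => h1 D')]
  have h2 : ∑ D' : Fin k → Fin k, ∏ i, (if D i = D' i then (2 : ℝ) else 1) =
      ∏ i : Fin k, ∑ x : Fin k, (if D i = x then (2 : ℝ) else 1) := by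
    rw [Finset.prod_univ_sum, Fintype.piFinset_univ]
  rw [h2]
  have h3 : ∀ i : Fin k, ∑ x : Fin k, (if D i = x then (2 : ℝ) else 1) = (k : ℝ) + 1 := by
    intro i
    have h4 : ∀ x : Fin k, (if D i = x then (2 : ℝ) else 1) = 1 + (if D i = x then (1 : ℝ) else 0) := by
      intro x
      split_ifs <;> norm_num
    rw [Finset.sum_congr rfl (fun x _ => h4 x), Finset.sum_add_distrib, Finset.sum_ite_eq]
    simp
  rw [Finset.prod_congr rfl (fun i _ => h3 i)]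
  simp

private theorem Seb_count {k m : ℕ} (hk : 1 ≤ k) (D : Fin k → Fin k) :
    ((Finset.univ.filter (fun D' : Fin k → Fin k => k < agr D D' + m)).card : ℝ) ≤
      (2 : ℝ) ^ k * (k : ℝ) ^ m := by
  classical
  have hsub : Finset.univ.filter (fun D' : Fin k → Fin k => k < agr D D' + m) ⊆
      ((Finset.univ : Finset (Finset (Fin k))).filter (fun M => M.card ≤ m)).biUnion
        (fun M => Fintype.piFinset (fun i => if i ∈ M then (Finset.univ : Finset (Fin k)) else {D i})) := by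
    intro D' hD'
    rw [Finset.mem_filter] at hD'
    rw [Finset.mem_biUnion]
    refine ⟨Finset.univ.filter (fun i => ¬ D i = D' i), ?_, ?_⟩
    · rw [Finset.mem_filter]
      refine ⟨Finset.mem_univ _, ?_⟩
      have h1 := Finset.card_filter_add_card_filter_not (s := (Finset.univ : Finset (Fin k)))
        (fun i => D i = D' i)
      have h2 : (Finset.univ : Finset (Fin k)).card = k := by simp
      have h3 := hD'.2
      unfold agr at h3
      omega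
    · rw [Fintype.mem_piFinset]
      intro i
      by_cases hi : D i = D' i
      · have : i ∉ Finset.univ.filter (fun i => ¬ D i = D' i) := by simp [hi]
        rw [if_neg this, Finset.mem_singleton, hi]
      · have : i ∈ Finset.univ.filter (fun i => ¬ D i = D' i) := by simp [hi]
        rw [if_pos this]
        exact Finset.mem_univ _
  have hcard : (Finset.univ.filter (fun D' : Fin k → Fin k => k < agr D D' + m)).card ≤ 2 ^ k * k ^ m := by
    refine (Finset.card_le_card hsub).trans ?_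
    refine (Finset.card_biUnion_le_card_mul _ _ (k ^ m) ?_).trans ?_
    · intro M hM
      rw [Finset.mem_filter] at hM
      rw [Fintype.card_piFinset]
      have h1 : ∀ i : Fin k, (if i ∈ M then (Finset.univ : Finset (Fin k)) else {D i}).card =
          if i ∈ M then k else 1 := by
        intro i
        split_ifs <;> simp
      rw [Finset.prod_congr rfl (fun i _ => h1 i)]
      rw [Finset.prod_ite_mem, Finset.univ_inter, Finset.prod_const]
      exact Nat.pow_le_pow_right hk hM.2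
    · apply Nat.mul_le_mul_right
      refine (Finset.card_le_card (Finset.filter_subset _ _)).trans ?_
      simp
  calc ((Finset.univ.filter (fun D' : Fin k → Fin k => k < agr D D' + m)).card : ℝ)
      ≤ ((2 ^ k * k ^ m : ℕ) : ℝ) := by exact_mod_cast hcard
    _ = (2 : ℝ) ^ k * (k : ℝ) ^ m := by push_cast; ring

theorem avg_le (k r m : ℕ) (Y : ℝ) (hk : 1 ≤ k) (hY0 : 0 ≤ Y) (hY : (r : ℝ) / ((2 : ℝ) ^ k - 1) ≤ Y)
    (hm : Y ≤ (2 : ℝ) ^ m) :
    (∑ D : Fin k → Fin k, ∑ D' : Fin k → Fin k, rho k (agr D D') ^ r) / ((k : ℝ) ^ k) ^ 2 - 1 ≤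
      2 * Y / (2 : ℝ) ^ k * (((k : ℝ) + 1) / k) ^ k + Real.exp Y * (2 : ℝ) ^ k * (k : ℝ) ^ m / (k : ℝ) ^ k := by
  classical
  have hk0 : (0 : ℝ) < (k : ℝ) := by exact_mod_cast hk
  have hkk : (0 : ℝ) < (k : ℝ) ^ k := by positivity
  have hrow : ∀ D : Fin k → Fin k, ∑ D' : Fin k → Fin k, (rho k (agr D D') ^ r - 1) ≤
      2 * Y / (2 : ℝ) ^ k * ((k : ℝ) + 1) ^ k + Real.exp Y * ((2 : ℝ) ^ k * (k : ℝ) ^ m) := by
    intro D
    calc ∑ D' : Fin k → Fin k, (rho k (agr D D') ^ r - 1)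
        ≤ ∑ D' : Fin k → Fin k, (2 * Y / (2 : ℝ) ^ k * (2 : ℝ) ^ agr D D' +
            Real.exp Y * (if k < agr D D' + m then 1 else 0)) :=
          Finset.sum_le_sum (fun D' _ => Seb_pair k r m (agr D D') Y hk (Seb_agr_le D D') hY0 hY hm)
      _ = 2 * Y / (2 : ℝ) ^ k * (∑ D' : Fin k → Fin k, (2 : ℝ) ^ agr D D') +
            Real.exp Y * (∑ D' : Fin k → Fin k, (if k < agr D D' + m then (1 : ℝ) else 0)) := by
          rw [Finset.sum_add_distrib, ← Finset.mul_sum, ← Finset.mul_sum]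
      _ ≤ 2 * Y / (2 : ℝ) ^ k * ((k : ℝ) + 1) ^ k + Real.exp Y * ((2 : ℝ) ^ k * (k : ℝ) ^ m) := by
          rw [Seb_sum_pow]
          have h1 : ∑ D' : Fin k → Fin k, (if k < agr D D' + m then (1 : ℝ) else 0) =
              ((Finset.univ.filter (fun D' : Fin k → Fin k => k < agr D D' + m)).card : ℝ) := by
            rw [Finset.sum_boole]
          rw [h1]
          have h2 := mul_le_mul_of_nonneg_left (Seb_count (m := m) hk D) (Real.exp_pos Y).le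
          linarith
  have htot : ∑ D : Fin k → Fin k, ∑ D' : Fin k → Fin k, (rho k (agr D D') ^ r - 1) ≤
      (k : ℝ) ^ k * (2 * Y / (2 : ℝ) ^ k * ((k : ℝ) + 1) ^ k + Real.exp Y * ((2 : ℝ) ^ k * (k : ℝ) ^ m)) := by
    refine (Finset.sum_le_sum (fun D _ => hrow D)).trans ?_
    rw [Finset.sum_const, nsmul_eq_mul]
    apply le_of_eq
    congr 1
    simp
  have hsplit : ∑ D : Fin k → Fin k, ∑ D' : Fin k → Fin k, (rho k (agr D D') ^ r - 1) =
      (∑ D : Fin k → Fin k, ∑ D' : Fin k → Fin k, rho k (agr D D') ^ r) - ((k : ℝ) ^ k) ^ 2 := by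
    have h1 : ∀ D : Fin k → Fin k, ∑ D' : Fin k → Fin k, (rho k (agr D D') ^ r - 1) =
        (∑ D' : Fin k → Fin k, rho k (agr D D') ^ r) - (k : ℝ) ^ k := by
      intro D
      rw [Finset.sum_sub_distrib]
      congr 1
      simp
    rw [Finset.sum_congr rfl (fun D _ => h1 D), Finset.sum_sub_distrib]
    congr 1
    rw [Finset.sum_const, nsmul_eq_mul]
    simp only [Finset.card_univ, Fintype.card_pi, Fintype.card_fin, Finset.prod_const]
    push_cast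
    ring
  rw [hsplit] at htot
  have hS : (∑ D : Fin k → Fin k, ∑ D' : Fin k → Fin k, rho k (agr D D') ^ r) ≤
      ((k : ℝ) ^ k) ^ 2 + (k : ℝ) ^ k * (2 * Y / (2 : ℝ) ^ k * ((k : ℝ) + 1) ^ k +
        Real.exp Y * ((2 : ℝ) ^ k * (k : ℝ) ^ m)) := by linarith
  have hdiv : (∑ D : Fin k → Fin k, ∑ D' : Fin k → Fin k, rho k (agr D D') ^ r) / ((k : ℝ) ^ k) ^ 2 ≤
      (((k : ℝ) ^ k) ^ 2 + (k : ℝ) ^ k * (2 * Y / (2 : ℝ) ^ k * ((k : ℝ) + 1) ^ k +
        Real.exp Y * ((2 : ℝ) ^ k * (k : ℝ) ^ m))) / ((k : ℝ) ^ k) ^ 2 :=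
    div_le_div_of_nonneg_right hS (by positivity)
  have hfin : (((k : ℝ) ^ k) ^ 2 + (k : ℝ) ^ k * (2 * Y / (2 : ℝ) ^ k * ((k : ℝ) + 1) ^ k +
        Real.exp Y * ((2 : ℝ) ^ k * (k : ℝ) ^ m))) / ((k : ℝ) ^ k) ^ 2 =
      1 + (2 * Y / (2 : ℝ) ^ k * (((k : ℝ) + 1) / k) ^ k +
        Real.exp Y * (2 : ℝ) ^ k * (k : ℝ) ^ m / (k : ℝ) ^ k) := by
    rw [div_pow]
    field_simp
  rw [hfin] at hdiv
  linarith

end

end Pool.Agent.helper37.VN
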