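import Pool.Agent.helper37.VN.Sea

set_option autoImplicit false

/-!
# VN-10: no small dominating sets; selection of a minimal dominating set with private neighbours; a sum over `A`

(1) `cnt_small`: union bound over the at most `2^{k²}` subsets `D` of `U = Fin k × Fin k`; for `|D| ≤ h` the number of `A`
dominated by `D` is (by `cnt_pi`) `(1 - 2^{-|D|})^r T ≤ (1 - 2^{-h})^r T`, `T` the number of all `A`.
(2) `exists_sel`: let `D₀ = {(i, D i)}`, a set of `k` elements of `U` dominating all `z`; take a subset `E ⊆ D₀` minimal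
with the property that every `z` has some `d ∈ E` with `A z d = true`. By minimality each `d ∈ E` has some `z = s d`
such that no `d' ∈ E \ {d}` has `A z d' = true`; then `A z d = true`. `|E| ≤ k`, and `|E| > h` because there is no
dominating set with at most `h` elements. (If `r = 0` then `E = ∅` and this contradicts `h < |E|`.)
(3) `sum_A`: `(1 - 2^{-k})^{deg - k} ≤ (1 - 2^{-k})^{deg} / (1 - 2^{-k})^k` (for natural subtraction), and
`∑_A (1 - 2^{-k})^{deg_A u} = ∏_z ∑_{column} (…) = (2^{k²} (1 + (1 - 2^{-k}))/2)^r = T (1 - 2^{-(k+1)})^r`, where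
`deg_A u = #{z : A z u = true}`; half of the columns have the value `true` at `u`.
-/

namespace Pool.Agent.helper37.VN

noncomputable section

private theorem Sel_M (k : ℕ) : (Nat.card (Fin k × Fin k → Bool) : ℝ) = (2 : ℝ) ^ (k * k) := by
  rw [Nat.card_eq_fintype_card, Fintype.card_fun, Fintype.card_bool, Fintype.card_prod,
    Fintype.card_fin]
  push_cast
  rfl

private theorem Sel_T (k r : ℕ) : (Nat.card (Fin r → (Fin k × Fin k → Bool)) : ℝ) =
    (Nat.card (Fin k × Fin k → Bool) : ℝ) ^ r := by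
  rw [Nat.card_eq_fintype_card, Nat.card_eq_fintype_card, Fintype.card_fun, Fintype.card_fin]
  push_cast
  rfl

private theorem Sel_zero {k : ℕ} (D : Finset (Fin k × Fin k)) :
    cnt (fun f : Fin k × Fin k → Bool => ∀ d, d ∈ D → f d = false) =
      (Nat.card (Fin k × Fin k → Bool) : ℝ) * (1 / 2 : ℝ) ^ D.card := by
  classical
  have h1 := cnt_pi (ι := Fin k × Fin k) (β := Bool) (fun d b => d ∈ D → b = false)
  rw [h1, Sel_M]
  have h2 : ∀ d : Fin k × Fin k, cnt (fun b : Bool => d ∈ D → b = false) =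
      2 * (if d ∈ D then (1 / 2 : ℝ) else 1) := by
    intro d
    rw [cnt_eq_sum, Fintype.sum_bool]
    by_cases hd : d ∈ D
    · simp [hd]
    · simp [hd]
      norm_num
  rw [Finset.prod_congr rfl (fun d _ => h2 d), Finset.prod_mul_distrib, Finset.prod_const,
    Finset.card_univ, Fintype.card_prod, Fintype.card_fin]
  congr 1
  rw [Finset.prod_ite_mem, Finset.univ_inter, Finset.prod_const]

private theorem Sel_ex {k : ℕ} (D : Finset (Fin k × Fin k)) :
    cnt (fun f : Fin k × Fin k → Bool => ∃ d ∈ D, f d = true) =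
      (Nat.card (Fin k × Fin k → Bool) : ℝ) * (1 - (1 / 2 : ℝ) ^ D.card) := by
  have h1 : cnt (fun f : Fin k × Fin k → Bool => ∃ d ∈ D, f d = true) =
      cnt (fun f : Fin k × Fin k → Bool => ¬ ∀ d, d ∈ D → f d = false) := by
    apply cnt_congr
    intro f
    constructor
    · rintro ⟨d, hd, hf⟩ h
      rw [h d hd] at hf
      exact Bool.noConfusion hf
    · intro h
      by_contra h2
      apply h
      intro d hd
      by_contra h3
      exact h2 ⟨d, hd, by simpa using h3⟩
  rw [h1, cnt_not, Sel_zero]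
  ring

theorem cnt_small (k r h : ℕ) :
    cnt (fun A : Fin r → (Fin k × Fin k → Bool) => ∃ D : Finset (Fin k × Fin k), D.card ≤ h ∧
      ∀ z, ∃ d ∈ D, A z d = true) ≤
      (2 : ℝ) ^ (k ^ 2) * (1 - (1 / 2 : ℝ) ^ h) ^ r * (Nat.card (Fin r → (Fin k × Fin k → Bool)) : ℝ) := by
  classical
  have h1 := cnt_exists_le (α := Fin r → (Fin k × Fin k → Bool)) (ι := Finset (Fin k × Fin k))
    (fun D A => D.card ≤ h ∧ ∀ z, ∃ d ∈ D, A z d = true)
  refine h1.trans ?_
  have h0 : (0 : ℝ) ≤ 1 - (1 / 2 : ℝ) ^ h := by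
    have : (1 / 2 : ℝ) ^ h ≤ 1 := pow_le_one₀ (by norm_num) (by norm_num)
    linarith
  have h2 : ∀ D : Finset (Fin k × Fin k), cnt (fun A : Fin r → (Fin k × Fin k → Bool) =>
      D.card ≤ h ∧ ∀ z, ∃ d ∈ D, A z d = true) ≤
      (1 - (1 / 2 : ℝ) ^ h) ^ r * (Nat.card (Fin r → (Fin k × Fin k → Bool)) : ℝ) := by
    intro D
    by_cases hD : D.card ≤ h
    · have h3 : cnt (fun A : Fin r → (Fin k × Fin k → Bool) =>
          D.card ≤ h ∧ ∀ z, ∃ d ∈ D, A z d = true) =
          cnt (fun A : Fin r → (Fin k × Fin k → Bool) => ∀ z, ∃ d ∈ D, A z d = true) :=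
        cnt_congr fun A => ⟨fun h => h.2, fun h => ⟨hD, h⟩⟩
      have h4 := cnt_pi (ι := Fin r) (β := Fin k × Fin k → Bool)
        (fun _ f => ∃ d ∈ D, f d = true)
      rw [h3, h4, Finset.prod_const, Finset.card_univ, Fintype.card_fin, Sel_ex, Sel_T, mul_pow,
        mul_comm]
      have h5 : (0 : ℝ) ≤ 1 - (1 / 2 : ℝ) ^ D.card := by
        have : (1 / 2 : ℝ) ^ D.card ≤ 1 := pow_le_one₀ (by norm_num) (by norm_num)
        linarith
      have h6 : (1 / 2 : ℝ) ^ h ≤ (1 / 2 : ℝ) ^ D.card :=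
        pow_le_pow_of_le_one (by norm_num) (by norm_num) hD
      refine mul_le_mul_of_nonneg_right ?_ (by positivity)
      exact pow_le_pow_left₀ h5 (by linarith) r
    · have h3 : cnt (fun A : Fin r → (Fin k × Fin k → Bool) =>
          D.card ≤ h ∧ ∀ z, ∃ d ∈ D, A z d = true) = 0 := by
        rw [cnt_eq_sum]
        apply Finset.sum_eq_zero
        intro A _
        rw [if_neg (fun h' => hD h'.1)]
      rw [h3]
      exact mul_nonneg (pow_nonneg h0 r) (Nat.cast_nonneg _)
  refine (Finset.sum_le_sum fun D _ => h2 D).trans ?_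
  rw [Finset.sum_const, Finset.card_univ, Fintype.card_finset, Fintype.card_prod,
    Fintype.card_fin, nsmul_eq_mul]
  push_cast
  rw [sq, mul_assoc]

theorem exists_sel {k r h : ℕ} (A : Fin r → (Fin k × Fin k → Bool)) (h1 : ∃ D, Dom A D)
    (h2 : ¬ ∃ D : Finset (Fin k × Fin k), D.card ≤ h ∧ ∀ z, ∃ d ∈ D, A z d = true) :
    ∃ (E : Finset (Fin k × Fin k)) (s : Fin k × Fin k → Fin r), (∀ z, ∃ d ∈ E, A z d = true) ∧
      (∀ d ∈ E, ∀ d' ∈ E, A (s d) d' = true ↔ d' = d) ∧ E.card ≤ k ∧ h + 1 ≤ E.card := by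
  classical
  obtain ⟨D, hD⟩ := h1
  set D₀ : Finset (Fin k × Fin k) := Finset.univ.image (fun i => (i, D i)) with hD₀
  have hD₀c : D₀.card ≤ k := by
    refine Finset.card_image_le.trans ?_
    rw [Finset.card_univ, Fintype.card_fin]
  have hP₀ : ∀ z, ∃ d ∈ D₀, A z d = true := by
    intro z
    obtain ⟨i, hi⟩ := hD z
    exact ⟨(i, D i), Finset.mem_image_of_mem _ (Finset.mem_univ i), hi⟩
  set F := D₀.powerset.filter (fun E => ∀ z, ∃ d ∈ E, A z d = true) with hF
  have hFne : F.Nonempty :=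
    ⟨D₀, Finset.mem_filter.2 ⟨Finset.mem_powerset.2 (Finset.Subset.refl _), hP₀⟩⟩
  obtain ⟨E, hE, hmin⟩ := Finset.exists_min_image F Finset.card hFne
  obtain ⟨hE1, hE2⟩ := Finset.mem_filter.1 hE
  have hE1' : E ⊆ D₀ := Finset.mem_powerset.1 hE1
  have hcard : h + 1 ≤ E.card := by
    by_contra hc
    exact h2 ⟨E, by omega, hE2⟩
  obtain ⟨d₀, hd₀⟩ : E.Nonempty := Finset.card_pos.1 (by omega)
  have key : ∀ d ∈ E, ∃ z : Fin r, ∀ d' ∈ E, A z d' = true ↔ d' = d := by
    intro d hd
    by_contra hc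
    have h3 : ∀ z, ∃ d' ∈ E.erase d, A z d' = true := by
      intro z
      by_contra h4
      apply hc
      have h5 : ∀ d' ∈ E, A z d' = true → d' = d := by
        intro d' hd' hA
        by_contra hne
        exact h4 ⟨d', Finset.mem_erase.2 ⟨hne, hd'⟩, hA⟩
      refine ⟨z, fun d' hd' => ⟨h5 d' hd', fun he => ?_⟩⟩
      obtain ⟨d'', hd'', hA⟩ := hE2 z
      rw [he, ← h5 d'' hd'' hA]
      exact hA
    have h4 : E.erase d ∈ F := Finset.mem_filter.2
      ⟨Finset.mem_powerset.2 ((Finset.erase_subset _ _).trans hE1'), h3⟩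
    have h5 := hmin _ h4
    have h6 := Finset.card_erase_lt_of_mem hd
    omega
  obtain ⟨z₀, -⟩ := key d₀ hd₀
  have key' : ∀ d, ∃ z : Fin r, d ∈ E → ∀ d' ∈ E, A z d' = true ↔ d' = d := by
    intro d
    by_cases hd : d ∈ E
    · obtain ⟨z, hz⟩ := key d hd
      exact ⟨z, fun _ => hz⟩
    · exact ⟨z₀, fun h => absurd h hd⟩
  choose s hs using key'
  exact ⟨E, s, hE2, fun d hd d' hd' => hs d hd d' hd', (Finset.card_le_card hE1').trans hD₀c,
    hcard⟩

theorem sum_A (k r : ℕ) (hk : 1 ≤ k) (u : Fin k × Fin k) :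
    ∑ A : Fin r → (Fin k × Fin k → Bool),
      (1 - (1 / 2 : ℝ) ^ k) ^ ((Finset.univ.filter (fun z => A z u = true)).card - k) ≤
      ((1 - (1 / 2 : ℝ) ^ k) ^ k)⁻¹ * (1 - (1 / 2 : ℝ) ^ (k + 1)) ^ r *
        (Nat.card (Fin r → (Fin k × Fin k → Bool)) : ℝ) := by
  classical
  set β : ℝ := 1 - (1 / 2 : ℝ) ^ k with hβ
  have hq : (1 / 2 : ℝ) ^ k ≤ 1 / 2 := by
    calc (1 / 2 : ℝ) ^ k ≤ (1 / 2 : ℝ) ^ 1 :=
          pow_le_pow_of_le_one (by norm_num) (by norm_num) hk
      _ = 1 / 2 := pow_one _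
  have hq0 : (0 : ℝ) < (1 / 2 : ℝ) ^ k := by positivity
  have hβ0 : 0 < β := by linarith
  have hβ1 : β ≤ 1 := by linarith
  have hβk : 0 < β ^ k := pow_pos hβ0 k
  have h1 : ∀ m : ℕ, β ^ (m - k) ≤ (β ^ k)⁻¹ * β ^ m := by
    intro m
    rw [← div_eq_inv_mul, le_div_iff₀ hβk, ← pow_add]
    exact pow_le_pow_of_le_one hβ0.le hβ1 (by omega)
  set g : (Fin k × Fin k → Bool) → ℝ := fun f => if f u = true then β else 1 with hg
  have h2 : ∀ A : Fin r → (Fin k × Fin k → Bool),
      β ^ (Finset.univ.filter (fun z => A z u = true)).card = ∏ z, g (A z) := by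
    intro A
    rw [hg, Finset.prod_ite, Finset.prod_const, Finset.prod_const_one, mul_one]
  have h3 : ∑ f, g f = (Nat.card (Fin k × Fin k → Bool) : ℝ) * (1 - (1 / 2 : ℝ) ^ (k + 1)) := by
    have hinv : Function.Involutive
        (fun f : Fin k × Fin k → Bool => Function.update f u (!f u)) := by
      intro f
      funext x
      by_cases hx : x = u
      · subst hx
        simp
      · simp [Function.update_of_ne hx]
    set e : Equiv.Perm (Fin k × Fin k → Bool) := Function.Involutive.toPerm _ hinv with he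
    have h4 : ∑ f, g (e f) = ∑ f, g f := Equiv.sum_comp e g
    have h5 : ∀ f, g f + g (e f) = β + 1 := by
      intro f
      have h6 : (e f) u = !f u := by
        show Function.update f u (!f u) u = !f u
        rw [Function.update_self]
      rw [hg]
      beta_reduce
      rw [h6]
      cases f u
      · simp only [Bool.false_eq_true, if_false, Bool.not_false, if_true]
        ring
      · simp only [if_true, Bool.not_true, Bool.false_eq_true, if_false]
    have h7 : ∑ f, g f + ∑ f, g (e f) =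
        (Nat.card (Fin k × Fin k → Bool) : ℝ) * (β + 1) := by
      rw [← Finset.sum_add_distrib, Finset.sum_congr rfl (fun f _ => h5 f), Finset.sum_const,
        nsmul_eq_mul, Finset.card_univ, Nat.card_eq_fintype_card]
    rw [h4] at h7
    have h8 : (1 - (1 / 2 : ℝ) ^ (k + 1)) = (β + 1) / 2 := by
      rw [hβ, pow_succ]
      ring
    rw [h8]
    linarith
  have h4 : ∑ A : Fin r → (Fin k × Fin k → Bool), ∏ z, g (A z) = (∑ f, g f) ^ r :=
    (Fintype.sum_pow g r).symm
  calc ∑ A : Fin r → (Fin k × Fin k → Bool),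
        β ^ ((Finset.univ.filter (fun z => A z u = true)).card - k)
      ≤ ∑ A : Fin r → (Fin k × Fin k → Bool), (β ^ k)⁻¹ * ∏ z, g (A z) := by
        refine Finset.sum_le_sum fun A _ => ?_
        rw [← h2]
        exact h1 _
    _ = (β ^ k)⁻¹ * (1 - (1 / 2 : ℝ) ^ (k + 1)) ^ r *
        (Nat.card (Fin r → (Fin k × Fin k → Bool)) : ℝ) := by
        rw [← Finset.mul_sum, h4, h3, mul_pow, Sel_T]
        ring

end

end Pool.Agent.helper37.VN
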