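import Pool.Agent.helper37.VN.Def

set_option autoImplicit false

/-!
# VN-07: graphs on `U ⊕ R` and the structure `HasF`

`mkG B A C` is the graph on `U ⊕ R` with the graph `B` on `U`, the graph `C` on `R` and the edges `(z, u)` with
`A z u = true` between `R` and `U`.

`mkG_bijective` : every graph on `U ⊕ R` is `mkG B A C` for exactly one triple.
`hasF_mkG` : take `D' = D.map Function.Embedding.inl` and `s' (inl u) = inr (s u)` (any value on `inr`); check the three
conditions of `HasF`: domination of `inr z` by (h1), of `inl u` by (h3) (or `u ∈ D`); private neighbours by (h2); a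
vertex `inr x`, different from all `s d`: by (h4) there is a neighbour `z` of `x` outside of all `N[s d]`; a vertex
`inl u`: (h5).
-/

namespace Pool.Agent.helper37.VN

open scoped Classical

noncomputable section

/-- The graph on `U ⊕ R` with the given parts. -/
def mkG {U R : Type*} (B : SimpleGraph U) (A : R → U → Bool) (C : SimpleGraph R) : SimpleGraph (U ⊕ R) where
  Adj x y := match x, y with
    | Sum.inl u, Sum.inl u' => B.Adj u u'
    | Sum.inr z, Sum.inr z' => C.Adj z z'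
    | Sum.inl u, Sum.inr z => A z u = true
    | Sum.inr z, Sum.inl u => A z u = true
  symm := ⟨by
    rintro (u | z) (u' | z') h
    · exact B.adj_symm h
    · exact h
    · exact h
    · exact C.adj_symm h⟩
  loopless := ⟨by
    rintro (u | z) h
    · exact B.loopless.irrefl u h
    · exact C.loopless.irrefl z h⟩

theorem mkG_bijective (U R : Type*) :
    Function.Bijective (fun t : SimpleGraph U × (R → U → Bool) × SimpleGraph R => mkG t.1 t.2.1 t.2.2) := by
  constructor
  · rintro ⟨B, A, C⟩ ⟨B', A', C'⟩ h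
    have hadj : ∀ x y, (mkG B A C).Adj x y ↔ (mkG B' A' C').Adj x y := by
      intro x y
      have h' : mkG B A C = mkG B' A' C' := h
      rw [h']
    have hB : B = B' := by
      ext u u'
      exact hadj (Sum.inl u) (Sum.inl u')
    have hC : C = C' := by
      ext z z'
      exact hadj (Sum.inr z) (Sum.inr z')
    have hA : A = A' := by
      funext z u
      exact Bool.eq_iff_iff.2 (hadj (Sum.inr z) (Sum.inl u))
    rw [hA, hB, hC]
  · intro G
    refine ⟨(G.comap Sum.inl, fun z u => decide (G.Adj (Sum.inr z) (Sum.inl u)), G.comap Sum.inr), ?_⟩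
    ext x y
    rcases x with u | z <;> rcases y with u' | z'
    · exact Iff.rfl
    · change decide (G.Adj (Sum.inr z') (Sum.inl u)) = true ↔ G.Adj (Sum.inl u) (Sum.inr z')
      rw [decide_eq_true_iff]
      exact G.adj_comm _ _
    · change decide (G.Adj (Sum.inr z) (Sum.inl u')) = true ↔ G.Adj (Sum.inr z) (Sum.inl u')
      rw [decide_eq_true_iff]
    · exact Iff.rfl

theorem hasF_mkG {U R : Type*} [Fintype U] [Fintype R] (B : SimpleGraph U) (A : R → U → Bool) (C : SimpleGraph R)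
    (D : Finset U) (s : U → R)
    (h1 : ∀ z, ∃ d ∈ D, A z d = true)
    (h2 : ∀ d ∈ D, ∀ d' ∈ D, A (s d) d' = true ↔ d' = d)
    (h3 : ∀ u, u ∉ D → ∃ d ∈ D, B.Adj u d)
    (h4 : ∀ x, (∀ d ∈ D, x ≠ s d) → ∃ z, C.Adj x z ∧ ∀ d ∈ D, z ≠ s d ∧ ¬ C.Adj z (s d))
    (h5 : ∀ u, ∃ z, A z u = true ∧ ∀ d ∈ D, z ≠ s d ∧ ¬ C.Adj z (s d)) :
    HasF (mkG B A C) := by
  have hcn : ∀ x y : U ⊕ R, y ∈ cn (mkG B A C) x ↔ y = x ∨ (mkG B A C).Adj x y := by
    intro x y
    unfold cn
    simp only [Finset.mem_filter, Finset.mem_univ, true_and]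
  have hz : ∀ z : R, (∀ d ∈ D, z ≠ s d ∧ ¬ C.Adj z (s d)) →
      ∀ d ∈ D.map Function.Embedding.inl,
        (Sum.inr z : U ⊕ R) ∉ cn (mkG B A C) (Sum.elim (fun u => Sum.inr (s u)) (fun r => Sum.inr r) d) := by
    intro z h d hd hmem
    obtain ⟨e, he, rfl⟩ := Finset.mem_map.1 hd
    rw [hcn] at hmem
    rcases hmem with h1 | h1
    · exact (h e he).1 (Sum.inr_injective h1)
    · exact (h e he).2 (C.adj_symm h1)
  refine ⟨D.map Function.Embedding.inl, Sum.elim (fun u => Sum.inr (s u)) (fun r => Sum.inr r), ?_, ?_, ?_⟩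
  · rintro (u | z)
    · by_cases hu : u ∈ D
      · exact ⟨Sum.inl u, Finset.mem_map.2 ⟨u, hu, rfl⟩, (hcn _ _).2 (Or.inl rfl)⟩
      · obtain ⟨d, hd, hadj⟩ := h3 u hu
        exact ⟨Sum.inl d, Finset.mem_map.2 ⟨d, hd, rfl⟩, (hcn _ _).2 (Or.inr hadj)⟩
    · obtain ⟨d, hd, hadj⟩ := h1 z
      exact ⟨Sum.inl d, Finset.mem_map.2 ⟨d, hd, rfl⟩, (hcn _ _).2 (Or.inr hadj)⟩
  · intro d hd d' hd'
    obtain ⟨e, he, rfl⟩ := Finset.mem_map.1 hd
    obtain ⟨e', he', rfl⟩ := Finset.mem_map.1 hd'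
    rw [hcn]
    constructor
    · rintro (h | h)
      · exact absurd h Sum.inl_ne_inr
      · rw [(h2 e he e' he').1 h]
    · intro h
      exact Or.inr ((h2 e he e' he').2 (Sum.inl_injective h))
  · rintro (u | x) hv
    · obtain ⟨z, hzu, hz'⟩ := h5 u
      exact ⟨Sum.inr z, (hcn _ _).2 (Or.inr hzu), hz z hz'⟩
    · have hx : ∀ d ∈ D, x ≠ s d := by
        intro d hd h
        exact hv (Sum.inl d) (Finset.mem_map.2 ⟨d, hd, rfl⟩) (congrArg Sum.inr h)
      obtain ⟨z, hxz, hz'⟩ := h4 x hx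
      exact ⟨Sum.inr z, (hcn _ _).2 (Or.inr hxz), hz z hz'⟩

end

end Pool.Agent.helper37.VN
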