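import Pool.Agent.helper37.VN.Bcd
import Pool.Agent.helper37.VN.Str
import Pool.Agent.helper37.VN.Seb
import Pool.Agent.helper37.VN.Sel

set_option autoImplicit false

/-!
# VN-11: the total bound

`U = Fin k × Fin k`, `R = Fin r`. Graphs on `U ⊕ R` are triples `(B, A, C)` (`mkG_bijective`, `cnt_equiv`). Call `A` good if
some transversal dominates and no set of at most `h` elements of `U` dominates. For good `A` let `E`, `s` be as in
`exists_sel` (chosen by choice), `S = E.image s`, `|S| ≤ |E| ≤ k`. By `hasF_mkG` with `D = E`, if `mkG B A C` has not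
`HasF` then `A` is not good, or `A` is good and
* some `u ∉ E` has no `B`-neighbour in `E` : `cnt_B`, at most `k² 2^{-|E|} ≤ k² 2^{-(h+1)}` of all `B`;
* or some `x ∉ S` violates h4 : `cnt_C1`, at most `r (1 - 2^{-(k+1)})^{r-(k+1)}` of all `C`;
* or some `u ∈ U` violates h5, that is every `z` in `Q = {z : A z u = true}` is in `S` or has a `C`-neighbour in `S` :
  `cnt_C2`, at most `(1 - 2^{-k})^{|Q| - k}` of all `C`; summed over `A` by `sum_A`, and over the `k²` elements `u`.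
The `A` that are not good: `sec_moment`, `avg_le` and `cnt_small`. Use `cnt_prod` twice and `cnt_exists_le`, `cnt_or_le`.
-/

namespace Pool.Agent.helper37.VN

noncomputable section

/-- The error term. -/
def err (k r h m : ℕ) (Y : ℝ) : ℝ :=
  (2 * Y / (2 : ℝ) ^ k * (((k : ℝ) + 1) / k) ^ k + Real.exp Y * (2 : ℝ) ^ k * (k : ℝ) ^ m / (k : ℝ) ^ k)
    + (2 : ℝ) ^ (k ^ 2) * (1 - (1 / 2 : ℝ) ^ h) ^ r
    + (k : ℝ) ^ 2 * (1 / 2 : ℝ) ^ (h + 1)
    + (r : ℝ) * (1 - (1 / 2 : ℝ) ^ (k + 1)) ^ (r - (k + 1))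
    + (k : ℝ) ^ 2 * (((1 - (1 / 2 : ℝ) ^ k) ^ k)⁻¹ * (1 - (1 / 2 : ℝ) ^ (k + 1)) ^ r)

private theorem Tot_fst {α β : Type*} [Finite α] [Finite β] (P : α → Prop) :
    cnt (fun y : α × β => P y.1) = cnt P * (Nat.card β : ℝ) := by
  classical
  have := Fintype.ofFinite α
  rw [cnt_prod (fun a (_ : β) => P a), cnt_eq_sum P, Finset.sum_mul]
  refine Finset.sum_congr rfl fun a _ => ?_
  by_cases h : P a
  · rw [cnt_congr (Q := fun _ : β => True) (fun _ => by simp [h]), cnt_true, if_pos h, one_mul]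
  · rw [if_neg h, zero_mul]
    unfold cnt
    have h1 : IsEmpty {_b : β // P a} := ⟨fun b => h b.2⟩
    rw [Nat.card_of_isEmpty, Nat.cast_zero]

private theorem Tot_snd {α β : Type*} [Finite α] [Finite β] (Q : β → Prop) :
    cnt (fun y : α × β => Q y.2) = (Nat.card α : ℝ) * cnt Q := by
  have := Fintype.ofFinite α
  rw [cnt_prod (fun (_ : α) b => Q b), Finset.sum_const, Finset.card_univ, nsmul_eq_mul,
    Nat.card_eq_fintype_card]

/-- The number of pairs `(B, C)` for a fixed good `A`. -/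
private theorem Tot_good {k r h : ℕ} (A : Fin r → (Fin k × Fin k → Bool)) (h1 : ∃ D, Dom A D)
    (h2 : ¬ ∃ D : Finset (Fin k × Fin k), D.card ≤ h ∧ ∀ z, ∃ d ∈ D, A z d = true) :
    cnt (fun y : SimpleGraph (Fin k × Fin k) × SimpleGraph (Fin r) => ¬ HasF (mkG y.1 A y.2)) ≤
      (Nat.card (SimpleGraph (Fin k × Fin k)) : ℝ) * (Nat.card (SimpleGraph (Fin r)) : ℝ) *
        ((k : ℝ) ^ 2 * (1 / 2 : ℝ) ^ (h + 1) +
          (r : ℝ) * (1 - (1 / 2 : ℝ) ^ (k + 1)) ^ (r - (k + 1)) +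
          ∑ u : Fin k × Fin k, (1 - (1 / 2 : ℝ) ^ k) ^
            ((Finset.univ.filter (fun z => A z u = true)).card - k)) := by
  classical
  obtain ⟨E, s, e1, e2, e3, e4⟩ := exists_sel A h1 h2
  have hS : (E.image s).card ≤ k := Finset.card_image_le.trans e3
  set S := E.image s with hSdef
  set P1 : SimpleGraph (Fin k × Fin k) → Prop := fun B => ∃ u, u ∉ E ∧ ∀ d ∈ E, ¬ B.Adj u d with hP1
  set P2 : SimpleGraph (Fin r) → Prop :=
    fun C => ∃ x, x ∉ S ∧ ∀ z, C.Adj x z → z ∈ S ∨ ∃ s ∈ S, C.Adj z s with hP2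
  set P3 : SimpleGraph (Fin r) → Prop := fun C => ∃ u : Fin k × Fin k,
    ∀ z ∈ Finset.univ.filter (fun z => A z u = true), z ∈ S ∨ ∃ s ∈ S, C.Adj z s with hP3
  have key : ∀ y : SimpleGraph (Fin k × Fin k) × SimpleGraph (Fin r),
      ¬ HasF (mkG y.1 A y.2) → P1 y.1 ∨ (P2 y.2 ∨ P3 y.2) := by
    rintro ⟨B, C⟩ hn
    by_contra hcon
    rw [not_or, not_or] at hcon
    obtain ⟨n1, n2, n3⟩ := hcon
    have hcl : ∀ z, ¬ (z ∈ S ∨ ∃ s ∈ S, C.Adj z s) → ∀ d ∈ E, z ≠ s d ∧ ¬ C.Adj z (s d) := by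
      intro z hz d hd
      rw [not_or] at hz
      refine ⟨fun he => hz.1 ?_, fun ha => hz.2 ⟨s d, Finset.mem_image_of_mem s hd, ha⟩⟩
      rw [he]
      exact Finset.mem_image_of_mem s hd
    refine hn (hasF_mkG B A C E s e1 e2 ?_ ?_ ?_)
    · intro u hu
      by_contra hc
      apply n1
      refine ⟨u, hu, fun d hd hb => hc ⟨d, hd, hb⟩⟩
    · intro x hx
      by_contra hc
      apply n2
      refine ⟨x, ?_, ?_⟩
      · intro hxS
        obtain ⟨d, hd, hde⟩ := Finset.mem_image.1 hxS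
        exact hx d hd hde.symm
      · intro z hz
        by_contra hz2
        exact hc ⟨z, hz, hcl z hz2⟩
    · intro u
      by_contra hc
      apply n3
      refine ⟨u, fun z hz => ?_⟩
      by_contra hz2
      exact hc ⟨z, (Finset.mem_filter.1 hz).2, hcl z hz2⟩
  have b1 : cnt P1 ≤ (k : ℝ) ^ 2 * (1 / 2 : ℝ) ^ (h + 1) *
      (Nat.card (SimpleGraph (Fin k × Fin k)) : ℝ) := by
    refine (cnt_B E).trans ?_
    rw [Fintype.card_prod, Fintype.card_fin]
    push_cast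
    rw [← sq]
    refine mul_le_mul_of_nonneg_right (mul_le_mul_of_nonneg_left ?_ (by positivity))
      (Nat.cast_nonneg _)
    exact pow_le_pow_of_le_one (by norm_num) (by norm_num) e4
  have b2 : cnt P2 ≤ (r : ℝ) * (1 - (1 / 2 : ℝ) ^ (k + 1)) ^ (r - (k + 1)) *
      (Nat.card (SimpleGraph (Fin r)) : ℝ) := by
    have h3 := cnt_C1 S k hS
    rw [Fintype.card_fin] at h3
    exact h3
  have b3 : cnt P3 ≤ (∑ u : Fin k × Fin k, (1 - (1 / 2 : ℝ) ^ k) ^
      ((Finset.univ.filter (fun z => A z u = true)).card - k)) *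
      (Nat.card (SimpleGraph (Fin r)) : ℝ) := by
    rw [Finset.sum_mul]
    refine (cnt_exists_le (fun (u : Fin k × Fin k) (C : SimpleGraph (Fin r)) =>
      ∀ z ∈ Finset.univ.filter (fun z => A z u = true), z ∈ S ∨ ∃ s ∈ S, C.Adj z s)).trans ?_
    exact Finset.sum_le_sum fun u _ => cnt_C2 S _ k hS
  have c1 := cnt_mono key
  have c2 := cnt_or_le (fun y : SimpleGraph (Fin k × Fin k) × SimpleGraph (Fin r) => P1 y.1)
    (fun y => P2 y.2 ∨ P3 y.2)
  have c3 := cnt_or_le (fun y : SimpleGraph (Fin k × Fin k) × SimpleGraph (Fin r) => P2 y.2)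
    (fun y => P3 y.2)
  rw [Tot_fst P1] at c2
  rw [Tot_snd P2, Tot_snd P3] at c3
  have nB : (0 : ℝ) ≤ (Nat.card (SimpleGraph (Fin k × Fin k)) : ℝ) := Nat.cast_nonneg _
  have nC : (0 : ℝ) ≤ (Nat.card (SimpleGraph (Fin r)) : ℝ) := Nat.cast_nonneg _
  have d1 := mul_le_mul_of_nonneg_right b1 nC
  have d2 := mul_le_mul_of_nonneg_left b2 nB
  have d3 := mul_le_mul_of_nonneg_left b3 nB
  refine (c1.trans (c2.trans (add_le_add d1 (c3.trans (add_le_add d2 d3))))).trans (le_of_eq ?_)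
  ring

theorem cnt_notF (k r h m : ℕ) (Y : ℝ) (hk : 1 ≤ k) (hY0 : 0 ≤ Y) (hY : (r : ℝ) / ((2 : ℝ) ^ k - 1) ≤ Y)
    (hm : Y ≤ (2 : ℝ) ^ m) :
    cnt (fun G : SimpleGraph ((Fin k × Fin k) ⊕ Fin r) => ¬ HasF G) ≤
      err k r h m Y * (Nat.card (SimpleGraph ((Fin k × Fin k) ⊕ Fin r)) : ℝ) := by
  classical
  set TB : ℝ := (Nat.card (SimpleGraph (Fin k × Fin k)) : ℝ) with hTB
  set TC : ℝ := (Nat.card (SimpleGraph (Fin r)) : ℝ) with hTC
  set TA : ℝ := (Nat.card (Fin r → (Fin k × Fin k → Bool)) : ℝ) with hTA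
  have nB : 0 ≤ TB := Nat.cast_nonneg _
  have nC : 0 ≤ TC := Nat.cast_nonneg _
  have nA : 0 ≤ TA := Nat.cast_nonneg _
  let e : SimpleGraph (Fin k × Fin k) × (Fin r → (Fin k × Fin k → Bool)) × SimpleGraph (Fin r) ≃
      SimpleGraph ((Fin k × Fin k) ⊕ Fin r) :=
    Equiv.ofBijective _ (mkG_bijective (Fin k × Fin k) (Fin r))
  let e2 : (Fin r → (Fin k × Fin k → Bool)) × (SimpleGraph (Fin k × Fin k) × SimpleGraph (Fin r)) ≃
      SimpleGraph (Fin k × Fin k) × (Fin r → (Fin k × Fin k → Bool)) × SimpleGraph (Fin r) :=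
    { toFun := fun x => (x.2.1, x.1, x.2.2)
      invFun := fun y => (y.2.1, (y.1, y.2.2))
      left_inv := fun _ => rfl
      right_inv := fun _ => rfl }
  have hT : (Nat.card (SimpleGraph ((Fin k × Fin k) ⊕ Fin r)) : ℝ) = TA * (TB * TC) := by
    rw [← Nat.card_congr (e2.trans e), Nat.card_prod, Nat.card_prod]
    push_cast
    rfl
  set good : (Fin r → (Fin k × Fin k → Bool)) → Prop := fun A => (∃ D, Dom A D) ∧
    ¬ ∃ D : Finset (Fin k × Fin k), D.card ≤ h ∧ ∀ z, ∃ d ∈ D, A z d = true with hgood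
  set g : (Fin r → (Fin k × Fin k → Bool)) → ℝ := fun A =>
    ∑ u : Fin k × Fin k, (1 - (1 / 2 : ℝ) ^ k) ^
      ((Finset.univ.filter (fun z => A z u = true)).card - k) with hg
  have hq : (0 : ℝ) ≤ 1 - (1 / 2 : ℝ) ^ k :=
    sub_nonneg.2 (pow_le_one₀ (by norm_num) (by norm_num))
  have hq' : (0 : ℝ) ≤ 1 - (1 / 2 : ℝ) ^ (k + 1) :=
    sub_nonneg.2 (pow_le_one₀ (by norm_num) (by norm_num))
  have hg0 : ∀ A, 0 ≤ g A := fun A => Finset.sum_nonneg fun u _ => pow_nonneg hq _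
  set a1 : ℝ := (k : ℝ) ^ 2 * (1 / 2 : ℝ) ^ (h + 1) with ha1
  set a2 : ℝ := (r : ℝ) * (1 - (1 / 2 : ℝ) ^ (k + 1)) ^ (r - (k + 1)) with ha2
  have h01 : 0 ≤ a1 := by positivity
  have h02 : 0 ≤ a2 := mul_nonneg (Nat.cast_nonneg _) (pow_nonneg hq' _)
  have hN : ∀ A : Fin r → (Fin k × Fin k → Bool),
      cnt (fun y : SimpleGraph (Fin k × Fin k) × SimpleGraph (Fin r) =>
        ¬ HasF (mkG y.1 A y.2)) ≤ TB * TC * ((if ¬ good A then (1 : ℝ) else 0) + (a1 + a2 + g A)) := by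
    intro A
    by_cases hA : good A
    · rw [if_neg (not_not.2 hA), zero_add]
      exact Tot_good A hA.1 hA.2
    · rw [if_pos hA]
      have h3 := cnt_le_card (fun y : SimpleGraph (Fin k × Fin k) × SimpleGraph (Fin r) =>
        ¬ HasF (mkG y.1 A y.2))
      rw [Nat.card_prod, Nat.cast_mul] at h3
      refine h3.trans ?_
      have h4 : 0 ≤ a1 + a2 + g A := add_nonneg (add_nonneg h01 h02) (hg0 A)
      nlinarith [mul_nonneg (mul_nonneg nB nC) h4]
  have hbad : cnt (fun A => ¬ good A) ≤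
      ((2 * Y / (2 : ℝ) ^ k * (((k : ℝ) + 1) / k) ^ k +
        Real.exp Y * (2 : ℝ) ^ k * (k : ℝ) ^ m / (k : ℝ) ^ k) +
        (2 : ℝ) ^ (k ^ 2) * (1 - (1 / 2 : ℝ) ^ h) ^ r) * TA := by
    have h3 : cnt (fun A => ¬ good A) ≤
        cnt (fun A : Fin r → (Fin k × Fin k → Bool) => (¬ ∃ D, Dom A D) ∨
          ∃ D : Finset (Fin k × Fin k), D.card ≤ h ∧ ∀ z, ∃ d ∈ D, A z d = true) := by
      apply cnt_mono
      intro A hA
      by_contra hcon
      rw [not_or, not_not] at hcon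
      exact hA hcon
    refine h3.trans ((cnt_or_le _ _).trans ?_)
    rw [add_mul]
    refine add_le_add ?_ (cnt_small k r h)
    exact (sec_moment k r hk).trans (mul_le_mul_of_nonneg_right (avg_le k r m Y hk hY0 hY hm) nA)
  have hsumg : ∑ A : Fin r → (Fin k × Fin k → Bool), g A ≤ (k : ℝ) ^ 2 *
      (((1 - (1 / 2 : ℝ) ^ k) ^ k)⁻¹ * (1 - (1 / 2 : ℝ) ^ (k + 1)) ^ r) * TA := by
    rw [hg]
    rw [Finset.sum_comm]
    refine (Finset.sum_le_sum fun u _ => sum_A k r hk u).trans (le_of_eq ?_)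
    rw [Finset.sum_const, Finset.card_univ, Fintype.card_prod, Fintype.card_fin, nsmul_eq_mul]
    push_cast
    ring
  have hmain : cnt (fun G : SimpleGraph ((Fin k × Fin k) ⊕ Fin r) => ¬ HasF G) ≤
      ∑ A : Fin r → (Fin k × Fin k → Bool),
        TB * TC * ((if ¬ good A then (1 : ℝ) else 0) + (a1 + a2 + g A)) := by
    rw [← cnt_equiv (e2.trans e) (fun G => ¬ HasF G)]
    have h3 := cnt_prod (fun (A : Fin r → (Fin k × Fin k → Bool))
      (y : SimpleGraph (Fin k × Fin k) × SimpleGraph (Fin r)) => ¬ HasF (mkG y.1 A y.2))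
    refine (le_of_eq h3).trans (Finset.sum_le_sum fun A _ => hN A)
  refine hmain.trans ?_
  have hc : ∑ A : Fin r → (Fin k × Fin k → Bool), (if ¬ good A then (1 : ℝ) else 0) =
      cnt (fun A => ¬ good A) := by
    rw [cnt_eq_sum (fun A => ¬ good A)]
    refine Finset.sum_congr rfl fun A _ => ?_
    by_cases hA : good A
    · rw [if_neg (not_not.2 hA), if_neg (not_not.2 hA)]
    · rw [if_pos hA, if_pos hA]
  rw [← Finset.mul_sum, Finset.sum_add_distrib, hc, Finset.sum_add_distrib,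
    Finset.sum_const, Finset.card_univ, nsmul_eq_mul, ← Nat.card_eq_fintype_card, hT, ← hTA]
  unfold err
  have h5 : cnt (fun A => ¬ good A) + (TA * (a1 + a2) + ∑ A, g A) ≤
      (((2 * Y / (2 : ℝ) ^ k * (((k : ℝ) + 1) / k) ^ k +
        Real.exp Y * (2 : ℝ) ^ k * (k : ℝ) ^ m / (k : ℝ) ^ k) +
        (2 : ℝ) ^ (k ^ 2) * (1 - (1 / 2 : ℝ) ^ h) ^ r) * TA) + (TA * (a1 + a2) + (k : ℝ) ^ 2 *
      (((1 - (1 / 2 : ℝ) ^ k) ^ k)⁻¹ * (1 - (1 / 2 : ℝ) ^ (k + 1)) ^ r) * TA) :=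
    add_le_add hbad (add_le_add le_rfl hsumg)
  refine (mul_le_mul_of_nonneg_left h5 (mul_nonneg nB nC)).trans (le_of_eq ?_)
  ring

end

end Pool.Agent.helper37.VN
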